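import Pool.Agent.H91.RF.TargetsK2

/-!
# Small tools for the kernel `gk`
-/

open MeasureTheory Set Filter Topology Metric
open Pool.Agent.H29.TF (hk P)
open Pool.Agent.H91.RD Pool.Agent.H91.RF

namespace Pool.Agent.H3.RF

section

variable {N : ℕ} {K : ℝ} {V : ℝ → E N → ℝ}

lemma gk_meas (hKER : T_KER) (hV : Pt K V) {s t : ℝ} (hst : s < t) (x : E N) :
    Measurable (fun y => gk V t x s y) :=
  ((hKER N K V hV).1 s t hst).comp (measurable_const.prodMk measurable_id)

lemma gk_nonneg (hKER : T_KER) (hV : Pt K V) {s t : ℝ} (hst : s < t) (x y : E N) :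
    0 ≤ gk V t x s y :=
  (mul_nonneg (Real.exp_pos _).le
    (Pool.Agent.H29.TF.hk_nonneg (by linarith) _)).trans ((hKER N K V hV).2.1 s t hst x y).1

lemma gk_int (hKER : T_KER) (hV : Pt K V) {s t : ℝ} (hst : s < t) (x : E N) {g : E N → ℝ}
    {M : ℝ} (hg : Measurable g) (hM : ∀ y, |g y| ≤ M) :
    Integrable (fun y => gk V t x s y * g y) := by
  have h1 : Integrable (fun y => Real.exp (K * (t - s)) * hk (t - s) (x - y) * M) :=
    ((Pool.Agent.H29.TF.integrable_hk_sub (by linarith) x).const_mul _).mul_const _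
  refine h1.mono ((gk_meas hKER hV hst x).mul hg).aestronglyMeasurable (ae_of_all _ fun y => ?_)
  have hk0 : 0 ≤ hk (t - s) (x - y) := Pool.Agent.H29.TF.hk_nonneg (by linarith) _
  have hM0 : 0 ≤ M := (abs_nonneg _).trans (hM y)
  rw [Real.norm_eq_abs, Real.norm_eq_abs, abs_mul, abs_of_nonneg (gk_nonneg hKER hV hst x y),
    abs_of_nonneg (by positivity : (0 : ℝ) ≤ Real.exp (K * (t - s)) * hk (t - s) (x - y) * M)]
  exact mul_le_mul ((hKER N K V hV).2.1 s t hst x y).2 (hM y) (abs_nonneg _) (by positivity)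

lemma gk_mono (hKER : T_KER) (hV : Pt K V) {s t : ℝ} (hst : s < t) (x : E N) {g g' : E N → ℝ}
    {M M' : ℝ} (hg : Measurable g) (hM : ∀ y, |g y| ≤ M) (hg' : Measurable g')
    (hM' : ∀ y, |g' y| ≤ M') (h : ∀ y, g y ≤ g' y) :
    ∫ y, gk V t x s y * g y ≤ ∫ y, gk V t x s y * g' y :=
  integral_mono (gk_int hKER hV hst x hg hM) (gk_int hKER hV hst x hg' hM') fun y =>
    mul_le_mul_of_nonneg_left (h y) (gk_nonneg hKER hV hst x y)

lemma gk_integral_nonneg (hKER : T_KER) (hV : Pt K V) {s t : ℝ} (hst : s < t) (x : E N)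
    {g : E N → ℝ} (h : ∀ y, 0 ≤ g y) : 0 ≤ ∫ y, gk V t x s y * g y :=
  integral_nonneg fun y => mul_nonneg (gk_nonneg hKER hV hst x y) (h y)

lemma gk_const (hKER : T_KER) (hV : Pt K V) {s t : ℝ} (hst : s < t) (x : E N) {c : ℝ}
    (hc : 0 ≤ c) : ∫ y, gk V t x s y * c ≤ Real.exp (K * (t - s)) * c := by
  have h1 : Integrable (fun y => Real.exp (K * (t - s)) * hk (t - s) (x - y) * c) :=
    ((Pool.Agent.H29.TF.integrable_hk_sub (by linarith) x).const_mul _).mul_const _
  calc ∫ y, gk V t x s y * c ≤ ∫ y, Real.exp (K * (t - s)) * hk (t - s) (x - y) * c := by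
        refine integral_mono (gk_int hKER hV hst x measurable_const
          (fun _ => (abs_of_nonneg hc).le)) h1 fun y => ?_
        exact mul_le_mul_of_nonneg_right ((hKER N K V hV).2.1 s t hst x y).2 hc
    _ = Real.exp (K * (t - s)) * c := by
        rw [integral_mul_const, integral_const_mul,
          Pool.Agent.H29.TF.integral_hk_sub (by linarith), mul_one]

end

end Pool.Agent.H3.RF
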