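import Pool.Agent.H3.RF.ABDA

/-!
# [ABD] lower bound of the time derivative
-/

open MeasureTheory Set Filter Topology Metric
open Pool.Agent.H29.TF (hk P)
open Pool.Agent.H91.RD Pool.Agent.H91.RF

namespace Pool.Agent.H3.RF

section

variable {N : ℕ} {u : ℝ → E N → ℝ} {V : ℝ → E N → ℝ} {K C : ℝ}

lemma hA_sub (hKER : T_KER) (hV : Pt K V) (zdt : Zc V C (dt u))
    (zdx : ∀ h, Zc V (C * ‖h‖) (dx u h)) {e : E N} (he : ‖e‖ = 1) {r : ℝ} (hr : 0 ≤ r) {s t : ℝ}
    (hs : 1 ≤ s) (hst : s < t) (x : E N) :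
    hA u e r t x ≤ ∫ y, gk V t x s y * hA u e r s y := by
  have zp := zc_p hKER hV zdt zdx he
  have zF := zc_F hKER hV zdt zdx he
  have h1 := zF.pos_le hKER hV hs hst x
  have h2 := zp.pos_le hKER hV hs hst x
  have b1 : ∀ y, |max (-dt u s y - -dx u e s y) 0| ≤ 2 * C := fun y => by
    rw [abs_of_nonneg (le_max_right _ _)]
    exact max_le ((le_abs_self _).trans (zF.bdd s hs y)) ((abs_nonneg _).trans (zF.bdd s hs y))
  have b2 : ∀ y, |max (-dx u e s y) 0| ≤ C := fun y => by
    rw [abs_of_nonneg (le_max_right _ _)]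
    exact max_le ((le_abs_self _).trans (zp.bdd s hs y)) ((abs_nonneg _).trans (zp.bdd s hs y))
  have e1 : ∀ y, gk V t x s y * hA u e r s y = gk V t x s y * max (-dt u s y - -dx u e s y) 0 +
      r * (gk V t x s y * max (-dx u e s y) 0) := fun y => by unfold hA; ring
  simp only [e1]
  have i1 : Integrable (fun y => gk V t x s y * max (-dt u s y - -dx u e s y) 0) :=
    gk_int hKER hV hst x ((zF.meas s hs).max measurable_const) b1
  have i2 : Integrable (fun y => r * (gk V t x s y * max (-dx u e s y) 0)) :=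
    (gk_int hKER hV hst x ((zp.meas s hs).max measurable_const) b2).const_mul r
  rw [integral_add i1 i2, integral_const_mul]
  unfold hA
  have h3 := mul_le_mul_of_nonneg_left h2 hr
  linarith

/-- `t exp (-σ t)` is small -/
lemma exp_small {A σ : ℝ} (hσ : 0 < σ) : ∀ᶠ t : ℝ in atTop,
    A * t * Real.exp (-(σ * t)) ≤ 1 := by
  filter_upwards [eventually_ge_atTop (2 * A / σ ^ 2), eventually_gt_atTop 0] with t ht ht0
  have h1 := Real.quadratic_le_exp_of_nonneg (x := σ * t) (by positivity)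
  have h2 : A * t ≤ Real.exp (σ * t) := by
    rw [div_le_iff₀ (by positivity)] at ht
    have : A * t * 2 ≤ t * σ ^ 2 * t := by
      calc A * t * 2 = 2 * A * t := by ring
        _ ≤ t * σ ^ 2 * t := by gcongr
    have h3 : 0 ≤ σ * t := by positivity
    nlinarith
  rw [Real.exp_neg, ← div_eq_mul_inv]
  exact (div_le_one (Real.exp_pos _)).2 h2

end

theorem ABD (hKER : T_KER) (hNSUP : T_NSUP) (hGEOB : T_GEOB) (hUPB : T_UPB) (hKREP : T_KREP)
    (hLINU : T_LINU) (hTRIV : T_TRIV) (hCHN : T_CHN) (hP0A : T_P0A) (hLIA : T_LIA) : T_ABD := by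
  intro N f K cc lo hi C0 C9 η0 U u hS hMac hF hlo hhi hAh
  obtain ⟨hV, C, hC1, hCb, zdt, zdx⟩ := zc_dx hLINU hKREP hS
  have hcc := hMac.cpos
  have hK := hV.K0
  set β : ℝ := (K + 2) / cc with hβdef
  have hβ : 0 < β := by positivity
  have hahd : Ahd f U u cc := by
    rcases hAh with h | h
    · exact ahd_D hP0A hUPB hS hMac hF hlo hhi h hC1 hCb zdt zdx
    · exact ahd_W hKER hNSUP hGEOB hUPB hS hcc h hC1 hCb hV zdt zdx
  obtain ⟨a1, ha1, hahd⟩ := hahd
  obtain ⟨L, hL, hchn⟩ := hCHN N K β cc hS.N1 hK hβ.le hcc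
  have hL0 : 0 < L := by linarith
  obtain ⟨ηa, hηa, ηL, hηL, TL, hTL, hlia⟩ := hLIA N f K cc C0 C9 η0 U u hS hcc hF
  obtain ⟨η1, hη1, T1, hT1, hlow1⟩ := frm_low hF 1 one_pos
  set κ : ℝ := (K + β ^ 2 + 1) * ((1 + ηa) / ηa) with hκdef
  have hκ : 0 < κ := by positivity
  obtain ⟨ρ, hρ, hρ2, -, Tb, hTb, hbox⟩ := box hUPB hS.condC hS.ne hcc (min ηL η1) (by positivity)
  obtain ⟨a, ha, haa1, hA1, haβ, haρ⟩ : ∃ a : ℝ, 0 < a ∧ a ≤ a1 ∧ a ≤ 1 ∧ β * a ≤ 1 / 64 ∧
      L * a ≤ ρ / 2 := by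
    refine ⟨min (min a1 1) (min (1 / (64 * β)) (ρ / (2 * L))), by positivity,
      (min_le_left _ _).trans (min_le_left _ _), (min_le_left _ _).trans (min_le_right _ _), ?_, ?_⟩
    · calc β * _ ≤ β * (1 / (64 * β)) := by
            gcongr; exact (min_le_right _ _).trans (min_le_left _ _)
        _ = 1 / 64 := by field_simp
    · calc L * _ ≤ L * (ρ / (2 * L)) := by
            gcongr; exact (min_le_right _ _).trans (min_le_right _ _)
        _ = ρ / 2 := by field_simp
  set δ : ℝ := a ^ 4 with hδdef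
  have hδ : 0 < δ := by positivity
  have hδa : δ ≤ a := by
    calc a ^ 4 = a ^ 3 * a := by ring
      _ ≤ 1 * a := by gcongr; exact pow_le_one₀ ha.le hA1
      _ = a := one_mul a
  have hδ1 : δ ≤ 1 := hδa.trans hA1
  have hLδ : L * δ ≤ ρ / 2 := (mul_le_mul_of_nonneg_left hδa hL0.le).trans haρ
  have hδρ : δ ≤ ρ / 2 := (le_mul_of_one_le_left hδ.le hL).trans hLδ
  obtain ⟨ηh, hηh, Th, hTh, hah⟩ := hahd a ha haa1
  set ε2 : ℝ := a ^ 6 / 16 with hε2def
  have hε2 : 0 < ε2 := by positivity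
  have hε2δ : ε2 ≤ δ / 16 := by
    rw [hε2def, hδdef]
    have : a ^ 6 ≤ a ^ 4 := pow_le_pow_of_le_one ha.le hA1 (by norm_num)
    linarith
  obtain ⟨η2, hη2, T2, hT2, hlow2⟩ := frm_low hF ε2 hε2
  obtain ⟨δN, hδN, hδNs⟩ : ∃ δN : ℝ, 0 < δN ∧ 16 * δN * (K * δN + 5 + 1) ≤ (ρ / 2) ^ 2 := by
    refine ⟨min 1 (ρ ^ 2 / (64 * (K + 6))), by positivity, ?_⟩
    have h1 : min 1 (ρ ^ 2 / (64 * (K + 6))) ≤ 1 := min_le_left _ _
    have h2 : min 1 (ρ ^ 2 / (64 * (K + 6))) ≤ ρ ^ 2 / (64 * (K + 6)) := min_le_right _ _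
    have h0 : 0 < min 1 (ρ ^ 2 / (64 * (K + 6))) := by positivity
    calc 16 * min 1 (ρ ^ 2 / (64 * (K + 6))) * (K * min 1 (ρ ^ 2 / (64 * (K + 6))) + 5 + 1)
        ≤ 16 * (ρ ^ 2 / (64 * (K + 6))) * (K * 1 + 5 + 1) := by gcongr
      _ = (ρ / 2) ^ 2 := by field_simp; ring
  obtain ⟨Tn, hTn, hns⟩ := hNSUP N K C (ρ / 2) δN 5 hK (by linarith) (by linarith) hδN
    (by norm_num) hδNs
  obtain ⟨Tc, hTc, hch⟩ := hchn δ 1 1 κ (4 * C) 3 hδ hδ1 one_pos one_pos hκ.le (by linarith)
    (by norm_num)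
  obtain ⟨ηf, hηf, hf1, hf2, hf3, hf4, hf5⟩ : ∃ η : ℝ, 0 < η ∧ η ≤ ρ ∧ η ≤ ηh ∧ η ≤ η2 ∧ η ≤ δ ∧
      β * η ≤ δ / 16 := by
    refine ⟨min (min ρ ηh) (min η2 (min δ (δ / (16 * β)))), by positivity,
      (min_le_left _ _).trans (min_le_left _ _), (min_le_left _ _).trans (min_le_right _ _),
      (min_le_right _ _).trans (min_le_left _ _),
      (min_le_right _ _).trans ((min_le_right _ _).trans (min_le_left _ _)), ?_⟩
    calc β * _ ≤ β * (δ / (16 * β)) := by
          gcongr
          exact (min_le_right _ _).trans ((min_le_right _ _).trans (min_le_right _ _))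
      _ = δ / 16 := by field_simp
  set B0 : ℝ := β * (L + cc + 1) * δ with hB0
  have hB00 : 0 < B0 := by positivity
  have hev : ∀ᶠ t in atTop, (2 * TL ≤ t ∧ 2 * T1 ≤ t ∧ Tb ≤ t ∧ Th ≤ t) ∧ (T2 ≤ t ∧ Tn ≤ t ∧
      Tc ≤ t ∧ 2 ≤ t) ∧ (2 / δ ≤ t ∧ 1 / δN ≤ t ∧ B0 * t * Real.exp (-(ε2 * t)) ≤ 1 ∧
      2 * (Real.log (4 * C) + 4) / δ ≤ t) :=
    ((eventually_ge_atTop _).and ((eventually_ge_atTop _).and ((eventually_ge_atTop _).and
      (eventually_ge_atTop _)))).and (((eventually_ge_atTop _).and ((eventually_ge_atTop _).and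
      ((eventually_ge_atTop _).and (eventually_ge_atTop _)))).and ((eventually_ge_atTop _).and
      ((eventually_ge_atTop _).and ((exp_small hε2).and (eventually_ge_atTop _)))))
  obtain ⟨T3, hT3⟩ := eventually_atTop.1 hev
  refine ⟨4 * κ + 2, by positivity, ηf, hηf, max T3 1, by positivity, ?_⟩
  intro t ht x0 e hn hd
  obtain ⟨⟨s1, s2, s3, s4⟩, ⟨s5, s6, s7, s8⟩, s9, s10, s11, s12⟩ :=
    hT3 t ((le_max_left _ _).trans ht)
  by_contra hcon
  push Not at hcon
  have ht0 : 0 < t := by linarith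
  have he : ‖e‖ = 1 := hn.1
  set r : ℝ := Real.exp (-(2 * t)) with hr
  have hr0 : 0 < r := Real.exp_pos _
  have hr1 : r ≤ 1 := Real.exp_le_one_iff.2 (by linarith)
  have zp := zc_p hKER hV zdt zdx he
  have hdρ : |infDist x0 U - cc * t| ≤ ρ * t := hd.trans (by gcongr)
  have hnρ := ndir_mono hn hf1
  -- the number of steps
  set n : ℕ := ⌊δ * t⌋₊ with hndef
  have hδt2 : 2 ≤ δ * t := by
    rw [div_le_iff₀ hδ] at s9
    linarith
  have hn1 : (n : ℝ) ≤ δ * t := Nat.floor_le (by positivity)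
  have hn2 : δ * t - 1 < n := Nat.sub_one_lt_floor _
  have hn3 : 1 ≤ n := by
    have : (1 : ℝ) < n := by linarith
    exact_mod_cast this.le
  have hδt : δ * t ≤ ρ / 2 * t := by gcongr
  have hρt : ρ * t ≤ 1 / 2 * t := by gcongr
  have htime : ∀ j : ℕ, j ≤ n → t - j ∈ Icc ((1 - ρ) * t) t ∧ t / 2 ≤ t - j ∧ 1 ≤ t - j := by
    intro j hj
    have : (j : ℝ) ≤ n := by exact_mod_cast hj
    have hj0 : (0 : ℝ) ≤ j := Nat.cast_nonneg j
    exact ⟨⟨by linarith, by linarith⟩, by linarith, by linarith⟩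
  -- box facts
  have hB : ∀ j : ℕ, j ≤ n → ∀ y, dist y x0 ≤ ρ * t → 0 < -dx u e (t - j) y ∧
      Real.exp (-t) ≤ -dx u e (t - j) y ∧ NDir U ηL y e ∧
      |infDist y U - cc * (t - j)| ≤ ηL * (t - j) := by
    intro j hj y hy
    obtain ⟨c1, c2, c3⟩ := htime j hj
    obtain ⟨b1, b2⟩ := hbox t s3 x0 e hnρ hdρ (t - j) c1 y hy
    have c0 : 0 ≤ t - j := by linarith
    obtain ⟨l1, -, l3⟩ := hlow1 (t - j) (by linarith) y e (ndir_mono b1 (min_le_right _ _))
      (b2.trans (mul_le_mul_of_nonneg_right (min_le_right _ _) c0))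
    refine ⟨l1, le_trans (Real.exp_le_exp.2 ?_) l3, ndir_mono b1 (min_le_left _ _),
      b2.trans (mul_le_mul_of_nonneg_right (min_le_left _ _) c0)⟩
    have : (0 : ℝ) ≤ j := Nat.cast_nonneg j
    linarith
  have hball : ∀ x ∈ closedBall x0 (L * δ * t), dist x x0 ≤ ρ / 2 * t := by
    intro x hx
    rw [mem_closedBall] at hx
    exact hx.trans (by gcongr)
  have hball' : ∀ x ∈ closedBall x0 (L * δ * t), dist x x0 ≤ ρ * t := fun x hx =>
    (hball x hx).trans (by
      have : 0 < ρ * t := by positivity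
      linarith)
  have hhp : ∀ j : ℕ, j ≤ n → ∀ x, dist x x0 ≤ ρ * t →
      r * -dx u e (t - j) x ≤ hA u e r (t - j) x ∧ 0 < hA u e r (t - j) x ∧
      Real.exp (-(3 * t)) ≤ hA u e r (t - j) x := by
    intro j hj x hx
    obtain ⟨b1, b2, -, -⟩ := hB j hj x hx
    have h1 : r * -dx u e (t - j) x ≤ hA u e r (t - j) x := by
      unfold hA
      have := le_max_right (-dt u (t - j) x - -dx u e (t - j) x) 0
      rw [max_eq_left b1.le]
      linarith
    have h2 : Real.exp (-(3 * t)) ≤ r * -dx u e (t - j) x := by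
      calc Real.exp (-(3 * t)) = r * Real.exp (-t) := by
            rw [hr, ← Real.exp_add]; congr 1; ring
        _ ≤ _ := by gcongr
    exact ⟨h1, lt_of_lt_of_le (Real.exp_pos _) (h2.trans h1), h2.trans h1⟩
  -- the point
  obtain ⟨p1, -, p3⟩ := hlow2 t s5 x0 e (ndir_mono hn hf3) (hd.trans (by gcongr))
  set p : ℝ := -dx u e t x0 with hp
  have hF0 : (4 * κ + 1) * p < -dt u t x0 - p := by linarith
  have hh0 : (4 * κ + 1) * p < hA u e r t x0 := by
    unfold hA
    have h1 := le_max_left (-dt u t x0 - -dx u e t x0) 0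
    have h2 : 0 ≤ r * max (-dx u e t x0) 0 := mul_nonneg hr0.le (le_max_right _ _)
    rw [← hp] at h1 h2 ⊢
    linarith
  have hhp0 : p ≤ hA u e r t x0 := by
    have : p ≤ (4 * κ + 1) * p := le_mul_of_one_le_left p1.le (by linarith)
    linarith
  have hh00 : 0 < hA u e r t x0 := lt_of_lt_of_le p1 hhp0
  have hlogh : -(ε2 * t) ≤ Real.log (hA u e r t x0) := by
    rw [Real.le_log_iff_exp_le hh00]
    exact p3.trans hhp0
  set B1 : ℝ := Real.log (4 * C) + β * (a ^ 5 * t) with hB1
  have hB10 : 0 ≤ B1 := add_nonneg (Real.log_nonneg (by linarith)) (by positivity)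
  set PA : ℝ := Real.exp (-(a ^ 6 * t / 8)) / hA u e r t x0 with hPA
  set A : Set (E N) := {y | cc * (t - n) + a ^ 5 * t ≤ infDist x0 U + inner ℝ (y - x0) e}
    with hAdef
  have hAm : MeasurableSet A := by
    apply measurableSet_le measurable_const
    exact (continuous_const.add ((continuous_id.sub continuous_const).inner
      continuous_const)).measurable
  have hd' := abs_le.1 hd
  have key := hch t s7 n (pot f u) (hA u e r) (fun s y => max (-dx u e s y) 0) x0 e A
    (infDist x0 U) B1 (B0 * t) PA hn3 (by rw [mul_one]; exact hn1) he hV hAm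
    (hd.trans (mul_le_of_le_one_left ht0.le (hf4.trans hδ1))) hB10 (by positivity)
    ?_ ?_ ?_ ?_ ?_ ?_ ?_ ?_
  · -- conclusion
    have k1 : max (-dx u e t x0) 0 = p := max_eq_left p1.le
    simp only [mul_one, k1] at key
    have k2 : κ * n * (p / hA u e r t x0) ≤ n / 4 := by
      have h1 : p / hA u e r t x0 ≤ 1 / (4 * κ + 1) := by
        rw [div_le_div_iff₀ hh00 (by positivity)]
        linarith
      calc κ * n * (p / hA u e r t x0) ≤ κ * n * (1 / (4 * κ + 1)) := by gcongr
        _ ≤ n / 4 := by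
          rw [mul_one_div, div_le_iff₀ (by positivity)]
          have : (0 : ℝ) ≤ n := Nat.cast_nonneg n
          linarith
    have k3 : B0 * t * PA ≤ 1 := by
      have h1 : PA ≤ Real.exp (-(ε2 * t)) := by
        rw [hPA, div_le_iff₀ hh00]
        calc Real.exp (-(a ^ 6 * t / 8)) = Real.exp (-(ε2 * t)) * Real.exp (-(ε2 * t)) := by
              rw [← Real.exp_add, hε2def]; congr 1; ring
          _ ≤ Real.exp (-(ε2 * t)) * hA u e r t x0 := by
              gcongr
              exact p3.trans hhp0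
      calc B0 * t * PA ≤ B0 * t * Real.exp (-(ε2 * t)) := by gcongr
        _ ≤ 1 := s11
    have k4 : -(δ / 16 * t) ≤ β * (infDist x0 U - cc * t) := by
      have h1 : β * (-(ηf * t)) ≤ β * (infDist x0 U - cc * t) := by gcongr; exact hd'.1
      have h2 : β * ηf * t ≤ δ / 16 * t := by gcongr
      linarith
    have k5 : β * (a ^ 5 * t) ≤ δ / 64 * t := by
      calc β * (a ^ 5 * t) = (β * a) * (a ^ 4 * t) := by ring
        _ ≤ (1 / 64) * (a ^ 4 * t) := by gcongr
        _ = δ / 64 * t := by rw [hδdef]; ring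
    have k6 : ε2 * t ≤ δ / 16 * t := by gcongr
    have k7 : 2 * (Real.log (4 * C) + 4) ≤ δ * t := by
      rw [div_le_iff₀ hδ] at s12
      linarith
    rw [hB1] at key
    linarith
  · -- measurability and bounds
    intro s hs
    have hs1 : 1 ≤ s := by linarith [hs.1]
    refine ⟨hA_meas zdt zdx e _ hs1, (zp.meas s hs1).max measurable_const, fun y =>
      ⟨hA_nonneg hr0.le y, hA_le he hr0.le hr1 hCb hs1 y, le_max_right _ _, max_le ?_ ?_⟩⟩
    · have := (le_abs_self _).trans (zp.bdd s hs1 y)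
      linarith
    · linarith
  · intro j hj x hx
    rw [mul_one]
    exact (hhp j hj x (hball' x hx)).2.2
  · intro j hj x hx
    rw [mul_one]
    obtain ⟨-, -, c3⟩ := htime (j + 1) hj
    push_cast at c3
    exact hA_sub hKER hV zdt zdx he hr0.le (by linarith) (by linarith) x
  · intro j hj x hx
    rw [mul_one]
    obtain ⟨-, -, c3⟩ := htime (j + 1) hj
    push_cast at c3
    have hnear := zp.near hKER hV (s := t - j - 1) (t := t - j) (B := Real.exp (-(5 * t)))
      (r := ρ / 2 * t) (by linarith) (by linarith) x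
      (fun g hg hgC hg0 => hns t s6 (pot f u) g (t - j) 1 x hV hg hgC one_pos (by
        rw [div_le_iff₀ hδN] at s10
        linarith) hg0)
      (fun y hy => by
        have h1 : dist y x0 ≤ ρ * t := by
          have := dist_triangle y x x0
          have := hball x hx
          linarith
        have h2 := (hB (j + 1) hj y h1).1
        push_cast at h2
        rw [show t - j - 1 = t - (j + 1 : ℝ) by ring]
        exact h2.le)
    refine hnear.trans (add_le_add (le_max_left _ _) ?_)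
    calc Real.exp (-(5 * t)) ≤ Real.exp (-t) * Real.exp (-(3 * t)) := by
          rw [← Real.exp_add]
          apply Real.exp_le_exp.2
          linarith
      _ ≤ Real.exp (-t) * hA u e r (t - j) x := by
          gcongr
          exact (hhp j hj.le x (hball' x hx)).2.2
  · -- local gain
    intro j hj x hx
    simp only [mul_one]
    obtain ⟨-, c2, c3⟩ := htime (j + 1) hj
    push_cast at c2 c3
    obtain ⟨b1, b2, b3, b4⟩ := hB j hj.le x (hball' x hx)
    obtain ⟨g1, g2, g3⟩ := hhp j hj.le x (hball' x hx)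
    have hjt : TL ≤ t - j := by
      have : (0 : ℝ) ≤ j := Nat.cast_nonneg j
      linarith
    have hk1 : max (-dx u e (t - j) x) 0 = -dx u e (t - j) x := max_eq_left b1.le
    rcases le_or_gt (-dx u e (t - j) x) (ηa * (-dt u (t - j) x - -dx u e (t - j) x)) with h | h
    · have h1 := hlia (t - j) hjt x e b3 b4 r hr0 hr1 h
      have h2 : 0 ≤ κ * (max (-dx u e (t - j) x) 0 / hA u e r (t - j) x) := by
        have := le_max_right (-dx u e (t - j) x) 0
        positivity
      have h3 : Real.log (hA u e r (t - j) x) + 1 ≤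
        Gn (pot f u) (hA u e r (t - j - 1)) β cc e 1 (t - j) x := h1
      linarith
    · have h1 := hA_sub hKER hV zdt zdx he hr0.le (s := t - j - 1) (t := t - j) (by linarith)
        (by linarith) x
      have hs1 : 1 ≤ t - j - 1 := by linarith
      have h2 := triv_gain hTRIV (g := 1) (κ := κ) (D := max (-dx u e (t - j) x) 0) (e := e) hV
        hβ.le hcc.le he (hA_meas zdt zdx e r hs1) (fun y => hA_nonneg hr0.le y)
        (fun y => hA_le he hr0.le hr1 hCb hs1 y) g2 h1 ?_
      · simpa using h2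
      · rw [hk1]
        have h3 : hA u e r (t - j) x ≤ -dx u e (t - j) x * ((1 + ηa) / ηa) := by
          unfold hA
          rw [hk1]
          have e1 : -dx u e (t - j) x * ((1 + ηa) / ηa) =
            -dx u e (t - j) x / ηa + -dx u e (t - j) x := by field_simp; ring
          rw [e1]
          have h4 : r * -dx u e (t - j) x ≤ 1 * -dx u e (t - j) x := by gcongr
          have h5 : max (-dt u (t - j) x - -dx u e (t - j) x) 0 ≤ -dx u e (t - j) x / ηa := by
            refine max_le ?_ (by positivity)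
            rw [le_div_iff₀ hηa]
            linarith
          linarith
        have h4 : 1 ≤ (1 + ηa) / ηa * (-dx u e (t - j) x / hA u e r (t - j) x) := by
          rw [← mul_div_assoc, le_div_iff₀ g2]
          linarith
        calc K + β ^ 2 + 1 = (K + β ^ 2 + 1) * 1 := by ring
          _ ≤ (K + β ^ 2 + 1) * ((1 + ηa) / ηa * (-dx u e (t - j) x / hA u e r (t - j) x)) := by
              gcongr
          _ = κ * (-dx u e (t - j) x / hA u e r (t - j) x) := by rw [hκdef]; ring
  · refine le_trans (Real.exp_le_exp.2 ?_) (p3.trans hhp0)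
    have : ε2 * t ≤ δ / 16 * t := by gcongr
    linarith
  · -- terminal values
    intro y hy
    rw [mul_one]
    have hy' := hball' y hy
    rw [mem_closedBall] at hy
    obtain ⟨g1, g2, g3⟩ := hhp n le_rfl y hy'
    obtain ⟨-, -, c3⟩ := htime n le_rfl
    have hl : Real.log (hA u e r (t - n) y) ≤ Real.log (4 * C) :=
      Real.log_le_log g2 (hA_le he hr0.le hr1 hCb c3 y)
    have hin : inner ℝ (y - x0) e ≤ L * δ * t := by
      have h1 := real_inner_le_norm (y - x0) e
      rw [he, mul_one, ← dist_eq_norm] at h1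
      linarith
    by_cases hyA : y ∈ A
    · right
      refine ⟨hyA, ?_⟩
      have h1 : infDist x0 U + inner ℝ (y - x0) e - cc * (t - n) ≤ (L + cc + 1) * δ * t := by
        have h2 : ηf * t ≤ δ * t := by gcongr
        have h3 : cc * n ≤ cc * (δ * t) := by gcongr
        linarith [hd'.2]
      have h2 : β * (infDist x0 U + inner ℝ (y - x0) e - cc * (t - n)) ≤
          β * ((L + cc + 1) * δ * t) := by gcongr
      have h3 : 0 ≤ β * (a ^ 5 * t) := by positivity
      rw [hB1, hB0]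
      linarith
    · left
      have h1 : infDist x0 U + inner ℝ (y - x0) e < cc * (t - n) + a ^ 5 * t := not_le.1 hyA
      have h2 : β * (infDist x0 U + inner ℝ (y - x0) e - cc * (t - n)) ≤ β * (a ^ 5 * t) := by
        gcongr
        linarith
      rw [hB1]
      linarith
  · -- the region ahead
    rw [mul_one, hPA, div_mul_cancel₀ _ hh00.ne']
    exact hah t s4 x0 e (ndir_mono hn hf2) (hd.trans (by gcongr)) n ⟨by
      have : δ * t / 2 ≤ n := by linarith
      exact this, hn1⟩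

end Pool.Agent.H3.RF
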