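import Pool.Agent.H3.RF.Lib2

/-!
# [ABD] the region ahead
-/

open MeasureTheory Set Filter Topology Metric
open Pool.Agent.H29.TF (hk P)
open Pool.Agent.H91.RD Pool.Agent.H91.RF

namespace Pool.Agent.H3.RF

/-- the positive quantity of [ABD] -/
noncomputable def hA {N : ℕ} (u : ℝ → E N → ℝ) (e : E N) (r s : ℝ) (y : E N) : ℝ :=
  max (-dt u s y - -dx u e s y) 0 + r * max (-dx u e s y) 0

section

variable {N : ℕ} {u : ℝ → E N → ℝ} {V : ℝ → E N → ℝ} {K C : ℝ}

lemma zc_p (hKER : T_KER) (hV : Pt K V) (zdt : Zc V C (dt u))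
    (zdx : ∀ h, Zc V (C * ‖h‖) (dx u h)) {e : E N} (he : ‖e‖ = 1) :
    Zc V C (fun s y => -dx u e s y) := by
  have h1 := Zc.lin hKER hV (zdx e) zdt (-1) 0
  have e1 : (fun s y => -dx u e s y) = fun s y => (-1) * dx u e s y + 0 * dt u s y := by
    funext s y; ring
  rw [e1]
  refine h1.mono ?_
  rw [he]
  simp

lemma zc_F (hKER : T_KER) (hV : Pt K V) (zdt : Zc V C (dt u))
    (zdx : ∀ h, Zc V (C * ‖h‖) (dx u h)) {e : E N} (he : ‖e‖ = 1) :
    Zc V (2 * C) (fun s y => -dt u s y - -dx u e s y) := by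
  have h1 := Zc.lin hKER hV (zdx e) zdt 1 (-1)
  have e1 : (fun s y => -dt u s y - -dx u e s y) =
      fun s y => 1 * dx u e s y + (-1) * dt u s y := by
    funext s y; ring
  rw [e1]
  refine h1.mono ?_
  rw [he]
  simp only [abs_neg, abs_one]
  linarith

lemma hA_meas (zdt : Zc V C (dt u)) (zdx : ∀ h, Zc V (C * ‖h‖) (dx u h)) (e : E N) (r : ℝ)
    {s : ℝ} (hs : 1 ≤ s) : Measurable (hA u e r s) := by
  have h1 := (zdx e).meas s hs
  have h2 := zdt.meas s hs
  exact ((h2.neg.sub h1.neg).max measurable_const).add ((h1.neg.max measurable_const).const_mul r)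

lemma hA_nonneg {e : E N} {r s : ℝ} (hr : 0 ≤ r) (y : E N) : 0 ≤ hA u e r s y :=
  add_nonneg (le_max_right _ _) (mul_nonneg hr (le_max_right _ _))

lemma abs_dx_le {e : E N} (he : ‖e‖ = 1) (s : ℝ) (y : E N) : |dx u e s y| ≤ gr u s y := by
  have := (fderiv ℝ (u s) y).le_opNorm e
  rw [he, mul_one] at this
  exact this

lemma hA_le_gr {e : E N} (he : ‖e‖ = 1) {r s : ℝ} (_hr : 0 ≤ r) (hr1 : r ≤ 1) (y : E N) :
    hA u e r s y ≤ 2 * (gr u s y + |dt u s y|) := by
  have h1 := abs_dx_le (u := u) he s y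
  have h2 := neg_abs_le (dx u e s y)
  have h3 := le_abs_self (dx u e s y)
  have h4 := neg_abs_le (dt u s y)
  have h5 : 0 ≤ gr u s y := norm_nonneg _
  have h6 : 0 ≤ |dt u s y| := abs_nonneg _
  have a1 : max (-dt u s y - -dx u e s y) 0 ≤ gr u s y + |dt u s y| :=
    max_le (by linarith) (by linarith)
  have a2 : max (-dx u e s y) 0 ≤ gr u s y := max_le (by linarith) h5
  have a3 : r * max (-dx u e s y) 0 ≤ 1 * gr u s y :=
    mul_le_mul hr1 a2 (le_max_right _ _) zero_le_one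
  unfold hA
  linarith

lemma hA_le {e : E N} (he : ‖e‖ = 1) {r s : ℝ} (hr : 0 ≤ r) (hr1 : r ≤ 1)
    (hC : ∀ t ≥ 1, ∀ x, gr u t x ≤ C ∧ |dt u t x| ≤ C) (hs : 1 ≤ s) (y : E N) :
    hA u e r s y ≤ 4 * C := by
  have := hA_le_gr (u := u) he hr hr1 (s := s) y
  have := hC s hs y
  linarith

end

/-- the claim of this file -/
def Ahd {N : ℕ} (f : ℝ → ℝ) (U : Set (E N)) (u : ℝ → E N → ℝ) (cc : ℝ) : Prop :=
  ∃ a1 > 0, ∀ a, 0 < a → a ≤ a1 → ∃ η > 0, ∃ T > 0, ∀ t ≥ T, ∀ x0 e, NDir U η x0 e →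
    |infDist x0 U - cc * t| ≤ η * t → ∀ s ∈ Icc (a ^ 4 * t / 2) (a ^ 4 * t),
      ∫ y, gk (pot f u) t x0 (t - s) y *
        {y | cc * (t - s) + a ^ 5 * t ≤ infDist x0 U + inner ℝ (y - x0) e}.indicator
          (hA u e (Real.exp (-(2 * t))) (t - s)) y ≤ Real.exp (-(a ^ 6 * t / 8))

section

variable {N : ℕ} {f : ℝ → ℝ} {U : Set (E N)} {u : ℝ → E N → ℝ} {K cc lo hi C0 C9 η0 C : ℝ}

lemma ahd_D (hP0A : T_P0A) (hUPB : T_UPB) (hS : Stg f K U u) (hM : Mac U u cc lo hi)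
    (hF : Frm U u cc C0 C9 η0) (hlo : 4 * fp f lo ≤ cc ^ 2) (hhi : fp f hi ≤ 0)
    (hAD : AheadD U u cc) (hC1 : 1 ≤ C) (hC : ∀ t ≥ 1, ∀ x, gr u t x ≤ C ∧ |dt u t x| ≤ C)
    (zdt : Zc (pot f u) C (dt u)) (zdx : ∀ h, Zc (pot f u) (C * ‖h‖) (dx u h)) :
    Ahd f U u cc := by
  obtain ⟨a0, ha0, L, hL, h1⟩ := hP0A N f K cc lo hi C0 C9 η0 U u hS hM hF hlo hhi
  obtain ⟨ηD, hηD, h2⟩ := hAD
  obtain ⟨ρ, hρ, hρ2, -, Tb, hTb, hbox⟩ := box hUPB hS.condC hS.ne hM.cpos ηD hηD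
  have hL0 : 0 < L := by linarith
  refine ⟨min a0 (min 1 (ρ / L)), by positivity, ?_⟩
  intro a ha ha1
  have haa0 : a ≤ a0 := ha1.trans (min_le_left _ _)
  have haa1 : a ≤ 1 := ha1.trans ((min_le_right _ _).trans (min_le_left _ _))
  have haρ : a ≤ ρ / L := ha1.trans ((min_le_right _ _).trans (min_le_right _ _))
  have ha4 : a ^ 4 ≤ a := by
    calc a ^ 4 = a ^ 3 * a := by ring
      _ ≤ 1 * a := by gcongr; exact pow_le_one₀ ha.le haa1
      _ = a := one_mul a
  have hLa : L * a ^ 4 ≤ ρ := by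
    calc L * a ^ 4 ≤ L * (ρ / L) := by gcongr; exact ha4.trans haρ
      _ = ρ := by field_simp
  have ha4ρ : a ^ 4 ≤ ρ := (le_mul_of_one_le_left (pow_pos ha 4).le hL).trans hLa
  obtain ⟨η, hη, ε, hε, T, hT, h3⟩ := h1 a ha haa0 (4 * C) (by linarith)
  obtain ⟨T', hT', h4⟩ := h2 (ε / 2) (by linarith)
  have hev : ∀ᶠ t in atTop, T ≤ t ∧ Tb ≤ t ∧ 2 * T' ≤ t ∧ 2 ≤ t ∧ 2 / ε ≤ t :=
    (eventually_ge_atTop T).and ((eventually_ge_atTop Tb).and ((eventually_ge_atTop (2 * T')).and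
      ((eventually_ge_atTop 2).and (eventually_ge_atTop (2 / ε)))))
  obtain ⟨T2, hT2⟩ := eventually_atTop.1 hev
  refine ⟨min η ρ, by positivity, max T2 1, by positivity, ?_⟩
  intro t ht x0 e hn hd s hs
  obtain ⟨t1, t2, t3, t4, t5⟩ := hT2 t ((le_max_left _ _).trans ht)
  have ht0 : 0 < t := by linarith
  have he : ‖e‖ = 1 := hn.1
  have hs0 : 0 < s := lt_of_lt_of_le (by positivity) hs.1
  have hsρ : s ≤ ρ * t := hs.2.trans (by gcongr)
  have hst : t - s ∈ Icc ((1 - ρ) * t) t := ⟨by linarith, by linarith⟩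
  have hts : t / 2 ≤ t - s := by
    have : ρ * t ≤ 1 / 2 * t := by gcongr
    linarith
  have hts1 : 1 ≤ t - s := by linarith
  have hr1 : Real.exp (-(2 * t)) ≤ 1 := Real.exp_le_one_iff.2 (by linarith)
  have hr0 : 0 ≤ Real.exp (-(2 * t)) := (Real.exp_pos _).le
  refine h3 t t1 x0 e (ndir_mono hn (min_le_left _ _))
    (hd.trans (by gcongr; exact min_le_left _ _)) s hs (hA u e (Real.exp (-(2 * t))) (t - s))
    (hA_meas zdt zdx e _ hts1) (fun y => ⟨hA_nonneg hr0 y, hA_le he hr0 hr1 hC hts1 y⟩) ?_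
  intro y hy hyd
  have hb := hbox t t2 x0 e (ndir_mono hn (min_le_right _ _))
    (hd.trans (by gcongr; exact min_le_right _ _)) (t - s) hst y (hy.trans (by gcongr))
  have hb2 : infDist y U ≤ (cc + ηD) * (t - s) := by
    have := (abs_le.1 hb.2).2
    linarith
  have h5 := h4 (t - s) (by linarith) y hyd hb2
  refine (hA_le_gr he hr0 hr1 y).trans ?_
  refine (mul_le_mul_of_nonneg_left h5 (by norm_num)).trans ?_
  have h6 : (2 : ℝ) ≤ Real.exp (ε / 2 * t) := by
    have : 1 ≤ ε / 2 * t := by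
      rw [div_le_iff₀ hε] at t5
      linarith
    linarith [Real.add_one_le_exp (ε / 2 * t)]
  calc 2 * Real.exp (-(cc / 2 * (infDist y U - cc * (t - s))) + ε / 2 * (t - s))
      ≤ Real.exp (ε / 2 * t) *
        Real.exp (-(cc / 2 * (infDist y U - cc * (t - s))) + ε / 2 * (t - s)) := by gcongr
    _ ≤ Real.exp (-(cc / 2 * (infDist y U - cc * (t - s))) + ε * t) := by
        rw [← Real.exp_add]
        apply Real.exp_le_exp.2
        have : ε / 2 * (t - s) ≤ ε / 2 * t := by gcongr; linarith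
        linarith

lemma ahd_W (hKER : T_KER) (hNSUP : T_NSUP) (hGEOB : T_GEOB) (hUPB : T_UPB) (hS : Stg f K U u)
    (hcc : 0 < cc) (hAW : AheadW U u cc) (hC1 : 1 ≤ C)
    (hC : ∀ t ≥ 1, ∀ x, gr u t x ≤ C ∧ |dt u t x| ≤ C) (hV : Pt K (pot f u))
    (zdt : Zc (pot f u) C (dt u)) (zdx : ∀ h, Zc (pot f u) (C * ‖h‖) (dx u h)) :
    Ahd f U u cc := by
  obtain ⟨κ, hκ, ηW, hηW, h1⟩ := hAW
  obtain ⟨Cg, hCg, ρ0, hρ0, h2⟩ := hGEOB N U (cc / 2) (2 * cc) hS.condC hS.ne (by linarith)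
    (by linarith)
  obtain ⟨ρ, hρ, hρ2, -, Tb, hTb, hbox⟩ := box hUPB hS.condC hS.ne hcc (min ηW (1 / 4))
    (by positivity)
  have hK := hV.K0
  set ρ' : ℝ := min ρ ρ0 with hρ'
  have hρ'0 : 0 < ρ' := by positivity
  set a1 : ℝ := min 1 (min (ρ' ^ 2 / (16 * (K + 3))) (1 / (2 * K))) with ha1def
  refine ⟨min a1 ρ, by positivity, ?_⟩
  intro a ha haa
  have haa1 : a ≤ a1 := haa.trans (min_le_left _ _)
  have hA1 : a ≤ 1 := haa1.trans (min_le_left _ _)
  have hA2 : a ≤ ρ' ^ 2 / (16 * (K + 3)) :=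
    haa1.trans ((min_le_right _ _).trans (min_le_left _ _))
  have hA3 : a ≤ 1 / (2 * K) := haa1.trans ((min_le_right _ _).trans (min_le_right _ _))
  have ha4 : a ^ 4 ≤ a := by
    calc a ^ 4 = a ^ 3 * a := by ring
      _ ≤ 1 * a := by gcongr; exact pow_le_one₀ ha.le hA1
      _ = a := one_mul a
  have ha40 : 0 < a ^ 4 := by positivity
  have hK4 : K * a ^ 4 ≤ 1 / 2 := by
    calc K * a ^ 4 ≤ K * (1 / (2 * K)) := by gcongr; exact ha4.trans hA3
      _ = 1 / 2 := by field_simp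
  have ha4ρ : a ^ 4 ≤ ρ := ha4.trans (haa.trans (min_le_right _ _))
  have hsm : 16 * a ^ 4 * (K * a ^ 4 + 2 + 1) ≤ ρ' ^ 2 := by
    have b1 : a ^ 4 * (16 * (K + 3)) ≤ ρ' ^ 2 := by
      rw [le_div_iff₀ (by positivity)] at hA2
      calc a ^ 4 * (16 * (K + 3)) ≤ a * (16 * (K + 3)) := by gcongr
        _ ≤ ρ' ^ 2 := hA2
    have b2 : K * a ^ 4 ≤ K := mul_le_of_le_one_right hK.le (ha4.trans hA1)
    calc 16 * a ^ 4 * (K * a ^ 4 + 2 + 1) ≤ 16 * a ^ 4 * (K + 2 + 1) := by gcongr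
      _ = a ^ 4 * (16 * (K + 3)) := by ring
      _ ≤ ρ' ^ 2 := b1
  obtain ⟨Tn, hTn, hns⟩ := hNSUP N K (4 * C) ρ' (a ^ 4) 2 hK (by linarith) hρ'0 ha40 (by norm_num)
    hsm
  obtain ⟨TW, hTW, hW⟩ := h1 1 one_pos (a ^ 5 / 2) (by positivity)
  obtain ⟨ηG, hηG, TG, hTG, hG⟩ := h2 ρ' hρ'0 (min_le_right _ _) (a ^ 5 / 2) (by positivity)
  have hev : ∀ᶠ t in atTop, Tn ≤ t ∧ Tb ≤ t ∧ 2 * TW ≤ t ∧ 2 ≤ t ∧ TG ≤ t ∧ 2 * C ≤ t :=
    (eventually_ge_atTop Tn).and ((eventually_ge_atTop Tb).and ((eventually_ge_atTop (2 * TW)).and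
      ((eventually_ge_atTop 2).and ((eventually_ge_atTop TG).and (eventually_ge_atTop (2 * C))))))
  obtain ⟨T2, hT2⟩ := eventually_atTop.1 hev
  refine ⟨min ηG (min ρ (cc / 2)), by positivity, max T2 1, by positivity, ?_⟩
  intro t ht x0 e hn hd s hs
  obtain ⟨t1, t2, t3, t4, t5, t6⟩ := hT2 t ((le_max_left _ _).trans ht)
  have ht0 : 0 < t := by linarith
  have he : ‖e‖ = 1 := hn.1
  have hs0 : 0 < s := lt_of_lt_of_le (by positivity) hs.1
  have hsρ : s ≤ ρ * t := hs.2.trans (by gcongr)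
  have hst : t - s ∈ Icc ((1 - ρ) * t) t := ⟨by linarith, by linarith⟩
  have hts : t / 2 ≤ t - s := by
    have : ρ * t ≤ 1 / 2 * t := by gcongr
    linarith
  have hts1 : 1 ≤ t - s := by linarith
  have hlt : t - s < t := by linarith
  set r : ℝ := Real.exp (-(2 * t)) with hr
  have hr1 : r ≤ 1 := Real.exp_le_one_iff.2 (by linarith)
  have hr0 : 0 ≤ r := (Real.exp_pos _).le
  have hd1 : |infDist x0 U - cc * t| ≤ ηG * t := hd.trans (by gcongr; exact min_le_left _ _)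
  have hd2 : |infDist x0 U - cc * t| ≤ ρ * t :=
    hd.trans (by gcongr; exact (min_le_right _ _).trans (min_le_left _ _))
  have hd3 : |infDist x0 U - cc * t| ≤ cc / 2 * t :=
    hd.trans (by gcongr; exact (min_le_right _ _).trans (min_le_right _ _))
  have hd3' := abs_le.1 hd3
  set A : Set (E N) := {y | cc * (t - s) + a ^ 5 * t ≤ infDist x0 U + inner ℝ (y - x0) e} with hAdef
  have hAm : MeasurableSet A := by
    apply measurableSet_le measurable_const
    exact (continuous_const.add ((continuous_id.sub continuous_const).inner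
      continuous_const)).measurable
  set B : Set (E N) := {y | dist y x0 ≤ ρ' * t} with hBdef
  have hBm : MeasurableSet B := (isClosed_closedBall (x := x0) (ε := ρ' * t)).measurableSet
  -- inside
  have hin : ∀ y ∈ A ∩ B, hA u e r (t - s) y ≤ r * C := by
    rintro y ⟨hyA, hyB⟩
    have hyB' : dist y x0 ≤ ρ * t := le_trans hyB (by gcongr; exact min_le_left _ _)
    obtain ⟨⟨-, ξ, ey, hDir, hey⟩, hb2⟩ := hbox t t2 x0 e
      (ndir_mono hn ((min_le_right _ _).trans (min_le_left _ _))) hd2 (t - s) hst y hyB'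
    have hGy := (hG t t5 x0 e (ndir_mono hn (min_le_left _ _)) (by linarith) (by linarith) y
      hyB).1
    have hyA' : cc * (t - s) + a ^ 5 * t ≤ infDist x0 U + inner ℝ (y - x0) e := hyA
    have ha5 : 0 < a ^ 5 := by positivity
    have c1 : (cc + a ^ 5 / 2) * (t - s) ≤ infDist y U := by
      have : a ^ 5 / 2 * (t - s) ≤ a ^ 5 / 2 * t := by gcongr
      linarith
    have c2 : infDist y U ≤ (cc + ηW) * (t - s) := by
      have b1 := (abs_le.1 hb2).2
      have b2 : min ηW (1 / 4) * (t - s) ≤ ηW * (t - s) := by gcongr; exact min_le_left _ _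
      linarith
    obtain ⟨w1, w2, w3⟩ := hW (t - s) (by linarith) y ξ ey hDir c1 c2
    have hey' : ‖e - ey‖ ≤ 1 / 4 := hey.trans (min_le_right _ _)
    have d1 : dx u e (t - s) y = dx u ey (t - s) y + dx u (e - ey) (t - s) y := by
      unfold dx
      rw [← map_add]
      congr 1
      abel
    have d2 : |dx u (e - ey) (t - s) y| ≤ gr u (t - s) y * ‖e - ey‖ :=
      (fderiv ℝ (u (t - s)) y).le_opNorm _
    have d3 : gr u (t - s) y * ‖e - ey‖ ≤ (2 * -dx u ey (t - s) y) * (1 / 4) := by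
      refine mul_le_mul ?_ hey' (norm_nonneg _) (by linarith)
      linarith
    have d4 := le_abs_self (dx u (e - ey) (t - s) y)
    have hp : 0 < -dx u e (t - s) y := by linarith
    have hdt : 0 < dt u (t - s) y := lt_of_lt_of_le (by positivity) w3
    have hp2 : -dx u e (t - s) y ≤ C := by
      have := abs_dx_le (u := u) he (t - s) y
      have := neg_abs_le (dx u e (t - s) y)
      have := (hC (t - s) hts1 y).1
      linarith
    unfold hA
    rw [max_eq_right (by linarith), max_eq_left hp.le, zero_add]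
    exact mul_le_mul_of_nonneg_left hp2 hr0
  -- splitting
  have hb0 : ∀ y, 0 ≤ hA u e r (t - s) y := fun y => hA_nonneg hr0 y
  have hb4 : ∀ y, hA u e r (t - s) y ≤ 4 * C := fun y => hA_le he hr0 hr1 hC hts1 y
  have hm : Measurable (hA u e r (t - s)) := hA_meas zdt zdx e _ hts1
  have hsplit : ∀ y, A.indicator (hA u e r (t - s)) y ≤
      r * C + Bᶜ.indicator (hA u e r (t - s)) y := by
    intro y
    have hrC : 0 ≤ r * C := by positivity
    by_cases hyA : y ∈ A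
    · rw [indicator_of_mem hyA]
      by_cases hyB : y ∈ B
      · rw [indicator_of_notMem (by simpa using hyB)]
        linarith [hin y ⟨hyA, hyB⟩]
      · rw [indicator_of_mem (by simpa using hyB)]
        linarith
    · rw [indicator_of_notMem hyA]
      exact add_nonneg hrC (indicator_nonneg (fun y _ => hb0 y) y)
  have hg1 : ∀ y, |A.indicator (hA u e r (t - s)) y| ≤ 4 * C := fun y => by
    rw [abs_of_nonneg (indicator_nonneg (fun y _ => hb0 y) y)]
    exact indicator_le' (fun y _ => hb4 y) (fun y _ => by positivity) y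
  have hg2 : ∀ y, |Bᶜ.indicator (hA u e r (t - s)) y| ≤ 4 * C := fun y => by
    rw [abs_of_nonneg (indicator_nonneg (fun y _ => hb0 y) y)]
    exact indicator_le' (fun y _ => hb4 y) (fun y _ => by positivity) y
  have hgm2 := hm.indicator hBm.compl
  have hrC : 0 ≤ r * C := by positivity
  have i1 := gk_mono hKER hV hlt x0 (hm.indicator hAm) hg1
    ((measurable_const (a := r * C)).add hgm2) (M' := r * C + 4 * C)
    (fun y => (abs_add_le _ _).trans (add_le_add (abs_of_nonneg hrC).le (hg2 y))) hsplit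
  have i2 : ∫ y, gk (pot f u) t x0 (t - s) y * (r * C + Bᶜ.indicator (hA u e r (t - s)) y) =
      (∫ y, gk (pot f u) t x0 (t - s) y * (r * C)) +
        ∫ y, gk (pot f u) t x0 (t - s) y * Bᶜ.indicator (hA u e r (t - s)) y := by
    rw [← integral_add (gk_int hKER hV hlt x0 measurable_const
      (fun _ => (abs_of_nonneg hrC).le)) (gk_int hKER hV hlt x0 hgm2 hg2)]
    congr 1
    funext y
    ring
  have i3 := gk_const hKER hV hlt x0 hrC
  have i4 := hns t t1 (pot f u) (Bᶜ.indicator (hA u e r (t - s))) t s x0 hV hgm2 hg2 hs0 hs.2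
    (fun y hy => indicator_of_notMem (show y ∉ Bᶜ from fun h => h (show y ∈ B from hy)) _)
  have i5 := (le_abs_self _).trans i4
  have e1 : Real.exp (K * (t - (t - s))) ≤ Real.exp (t / 2) := by
    apply Real.exp_le_exp.2
    have h8 : K * s ≤ K * (a ^ 4 * t) := by gcongr; exact hs.2
    have h9 : K * a ^ 4 * t ≤ 1 / 2 * t := by gcongr
    have h10 : K * (t - (t - s)) = K * s := by ring
    linarith
  have e2 : C + 1 ≤ Real.exp (t / 2) := by linarith [Real.add_one_le_exp (t / 2)]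
  calc ∫ y, gk (pot f u) t x0 (t - s) y * A.indicator (hA u e r (t - s)) y
      ≤ Real.exp (K * (t - (t - s))) * (r * C) + Real.exp (-(2 * t)) := by
        refine i1.trans ?_
        refine (le_of_eq i2).trans ?_
        exact add_le_add i3 i5
    _ ≤ Real.exp (t / 2) * (r * C) + Real.exp (t / 2) * r := by
        have : 1 * r ≤ Real.exp (t / 2) * r := by
          gcongr
          exact Real.one_le_exp (by linarith)
        have h7 : Real.exp (K * (t - (t - s))) * (r * C) ≤ Real.exp (t / 2) * (r * C) := by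
          gcongr
        linarith
    _ = (C + 1) * (Real.exp (t / 2) * r) := by ring
    _ ≤ Real.exp (t / 2) * (Real.exp (t / 2) * r) := by gcongr
    _ = Real.exp (-t) := by
        rw [hr, ← Real.exp_add, ← Real.exp_add]
        congr 1
        ring
    _ ≤ Real.exp (-(a ^ 6 * t / 8)) := by
        apply Real.exp_le_exp.2
        have h8 : a ^ 6 ≤ 1 := pow_le_one₀ ha.le hA1
        have h9 : a ^ 6 * t ≤ 1 * t := by gcongr
        linarith

end

end Pool.Agent.H3.RF
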