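import Pool.Agent.H3.RF.Lib

/-!
# Solutions of the linearised equation, boxes at a ratio
-/

open MeasureTheory Set Filter Topology Metric
open Pool.Agent.H29.TF (hk P)
open Pool.Agent.H91.RD Pool.Agent.H91.RF

namespace Pool.Agent.H3.RF

/-- bounded functions which are propagated by the kernel from time `1` on -/
structure Zc {N : ℕ} (V : ℝ → E N → ℝ) (C : ℝ) (z : ℝ → E N → ℝ) : Prop where
  meas : ∀ s ≥ 1, Measurable (z s)
  bdd : ∀ s ≥ 1, ∀ x, |z s x| ≤ C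
  rep : ∀ s t, 1 ≤ s → s < t → ∀ x, z t x = ∫ y, gk V t x s y * z s y

section

variable {N : ℕ} {K : ℝ} {V : ℝ → E N → ℝ}

lemma Zc.lin (hKER : T_KER) (hV : Pt K V) {C1 C2 : ℝ} {z1 z2 : ℝ → E N → ℝ} (h1 : Zc V C1 z1)
    (h2 : Zc V C2 z2) (a b : ℝ) :
    Zc V (|a| * C1 + |b| * C2) (fun t x => a * z1 t x + b * z2 t x) where
  meas s hs := ((h1.meas s hs).const_mul a).add ((h2.meas s hs).const_mul b)
  bdd s hs x := by
    refine (abs_add_le _ _).trans ?_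
    rw [abs_mul, abs_mul]
    exact add_le_add (mul_le_mul_of_nonneg_left (h1.bdd s hs x) (abs_nonneg _))
      (mul_le_mul_of_nonneg_left (h2.bdd s hs x) (abs_nonneg _))
  rep s t hs hst x := by
    have e : ∀ y, gk V t x s y * (a * z1 s y + b * z2 s y) =
        a * (gk V t x s y * z1 s y) + b * (gk V t x s y * z2 s y) := fun y => by ring
    simp only [e]
    rw [integral_add ((gk_int hKER hV hst x (h1.meas s hs) (h1.bdd s hs)).const_mul a)
      ((gk_int hKER hV hst x (h2.meas s hs) (h2.bdd s hs)).const_mul b), integral_const_mul,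
      integral_const_mul, ← h1.rep s t hs hst x, ← h2.rep s t hs hst x]

lemma Zc.mono {C C' : ℝ} {z : ℝ → E N → ℝ} (h : Zc V C z) (hC : C ≤ C') : Zc V C' z :=
  ⟨h.meas, fun s hs x => (h.bdd s hs x).trans hC, h.rep⟩

lemma Zc.pos_le (hKER : T_KER) (hV : Pt K V) {C : ℝ} {z : ℝ → E N → ℝ} (hz : Zc V C z)
    {s t : ℝ} (hs : 1 ≤ s) (hst : s < t) (x : E N) :
    max (z t x) 0 ≤ ∫ y, gk V t x s y * max (z s y) 0 := by
  refine max_le ?_ (gk_integral_nonneg hKER hV hst x fun y => le_max_right _ _)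
  rw [hz.rep s t hs hst x]
  refine gk_mono hKER hV hst x (hz.meas s hs) (hz.bdd s hs) ((hz.meas s hs).max measurable_const)
    (M' := C) (fun y => ?_) fun y => le_max_left _ _
  rw [abs_of_nonneg (le_max_right _ _)]
  exact max_le ((le_abs_self _).trans (hz.bdd s hs y)) ((abs_nonneg _).trans (hz.bdd s hs y))

lemma Zc.pos_eq (hKER : T_KER) (hV : Pt K V) {C : ℝ} {z : ℝ → E N → ℝ} (hz : Zc V C z)
    {s t : ℝ} (hs : 1 ≤ s) (hst : s < t) (x : E N) :
    ∫ y, gk V t x s y * max (z s y) 0 = z t x + ∫ y, gk V t x s y * max (-z s y) 0 := by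
  have hb : ∀ y, |max (-z s y) 0| ≤ C := fun y => by
    rw [abs_of_nonneg (le_max_right _ _)]
    exact max_le ((neg_le_abs _).trans (hz.bdd s hs y)) ((abs_nonneg _).trans (hz.bdd s hs y))
  have i2 : Integrable (fun y => gk V t x s y * max (-z s y) 0) :=
    gk_int hKER hV hst x ((hz.meas s hs).neg.max measurable_const) hb
  rw [hz.rep s t hs hst x, ← integral_add (gk_int hKER hV hst x (hz.meas s hs) (hz.bdd s hs)) i2]
  congr 1
  funext y
  rw [← mul_add]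
  congr 1
  rcases le_total (z s y) 0 with h | h
  · rw [max_eq_right h, max_eq_left (by linarith)]; ring
  · rw [max_eq_left h, max_eq_right (by linarith)]; ring

/-- from the Gaussian tail: nonnegative on a large ball implies almost super -/
lemma Zc.near (hKER : T_KER) (hV : Pt K V) {C : ℝ} {z : ℝ → E N → ℝ} (hz : Zc V C z)
    {s t B : ℝ} (hs : 1 ≤ s) (hst : s < t) (x : E N) {r : ℝ}
    (hB : ∀ g : E N → ℝ, Measurable g → (∀ y, |g y| ≤ C) → (∀ y, dist y x ≤ r → g y = 0) →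
      |∫ y, gk V t x s y * g y| ≤ B)
    (h0 : ∀ y, dist y x ≤ r → 0 ≤ z s y) :
    ∫ y, gk V t x s y * max (z s y) 0 ≤ z t x + B := by
  rw [hz.pos_eq hKER hV hs hst x]
  have := hB (fun y => max (-z s y) 0) ((hz.meas s hs).neg.max measurable_const) (fun y => by
    rw [abs_of_nonneg (le_max_right _ _)]
    exact max_le ((neg_le_abs _).trans (hz.bdd s hs y)) ((abs_nonneg _).trans (hz.bdd s hs y)))
    (fun y hy => max_eq_right (by linarith [h0 y hy]))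
  linarith [le_abs_self (∫ y, gk V t x s y * max (-z s y) 0)]

end

lemma zc_dx (hLINU : T_LINU) (hKREP : T_KREP) {N : ℕ} {f : ℝ → ℝ} {K : ℝ} {U : Set (E N)}
    {u : ℝ → E N → ℝ} (hS : Stg f K U u) : Pt K (pot f u) ∧ ∃ C ≥ 1, (∀ t ≥ 1, ∀ x,
      gr u t x ≤ C ∧ |dt u t x| ≤ C) ∧ Zc (pot f u) C (dt u) ∧
      ∀ h, Zc (pot f u) (C * ‖h‖) (dx u h) := by
  obtain ⟨hP, _, hL, C, hC⟩ := hLINU N f K U u hS.reac hS.lip hS.sol
  refine ⟨hP, max C 1, le_max_right _ _, fun t ht x =>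
    ⟨(hC t ht x).1.trans (le_max_left _ _), (hC t ht x).2.1.trans (le_max_left _ _)⟩, ?_, ?_⟩
  · refine ⟨fun s hs => ((hL s (s + 1) (by linarith) (by linarith)).2).meas,
      fun s hs x => (hC s hs x).2.1.trans (le_max_left _ _), fun s t hs hst x => ?_⟩
    exact hKREP N K s t _ _ hP ((hL s t (by linarith) hst).2) s t le_rfl hst le_rfl x
  · intro h
    refine ⟨fun s hs => ((hL s (s + 1) (by linarith) (by linarith)).1 h).meas,
      fun s hs x => ?_, fun s t hs hst x => ?_⟩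
    · refine ((fderiv ℝ (u s) x).le_opNorm h).trans ?_
      exact mul_le_mul_of_nonneg_right ((hC s hs x).1.trans (le_max_left _ _)) (norm_nonneg _)
    · exact hKREP N K s t _ _ hP ((hL s t (by linarith) hst).1 h) s t le_rfl hst le_rfl x

lemma ndir_mono {N : ℕ} {U : Set (E N)} {η η' : ℝ} {x e : E N} (h : NDir U η x e)
    (hη : η ≤ η') : NDir U η' x e := by
  obtain ⟨h1, ξ, e0, h2, h3⟩ := h
  exact ⟨h1, ξ, e0, h2, h3.trans hη⟩

/-- boxes at a ratio -/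
lemma box (hUPB : T_UPB) {N : ℕ} {U : Set (E N)} {cc : ℝ} (hC : CondC U) (hne : U.Nonempty)
    (hcc : 0 < cc) (ε : ℝ) (hε : 0 < ε) : ∃ ρ > 0, ρ ≤ 1 / 2 ∧ ρ ≤ ε ∧ ∃ T > 0, ∀ t ≥ T,
      ∀ x0 e, NDir U ρ x0 e → |infDist x0 U - cc * t| ≤ ρ * t → ∀ s ∈ Icc ((1 - ρ) * t) t,
      ∀ y, dist y x0 ≤ ρ * t → NDir U ε y e ∧ |infDist y U - cc * s| ≤ ε * s := by
  obtain ⟨ρ, hρ, T, hT, h⟩ := hUPB N U cc (fun ε t x e => NDir U ε x e ∧
    |infDist x U - cc * t| ≤ ε * t) hC hne hcc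
    (fun ε hε => ⟨ε, hε, 1, one_pos, fun t _ x e h1 h2 => ⟨h1, h2⟩⟩) ε hε
  refine ⟨min ρ (min (1 / 2) ε), by positivity, (min_le_right _ _).trans (min_le_left _ _),
    (min_le_right _ _).trans (min_le_right _ _), T, hT, ?_⟩
  intro t ht x0 e h1 h2 s hs y hy
  have ht0 : 0 < t := lt_of_lt_of_le hT ht
  have hle : min ρ (min (1 / 2) ε) ≤ ρ := min_le_left _ _
  refine h t ht x0 e (ndir_mono h1 hle) (h2.trans (by gcongr)) s ⟨?_, hs.2⟩ y
    (hy.trans (by gcongr))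
  refine le_trans ?_ hs.1
  gcongr

/-- positivity and lower bound of `p` -/
lemma frm_low {N : ℕ} {U : Set (E N)} {u : ℝ → E N → ℝ} {cc C0 C9 η0 : ℝ}
    (hF : Frm U u cc C0 C9 η0) (ε : ℝ) (hε : 0 < ε) : ∃ η > 0, ∃ T > 0, ∀ t ≥ T, ∀ x e,
      NDir U η x e → |infDist x U - cc * t| ≤ η * t → 0 < -dx u e t x ∧
      gr u t x ≤ C0 * -dx u e t x ∧ Real.exp (-(ε * t)) ≤ -dx u e t x := by
  obtain ⟨T1, hT1, h1⟩ := hF.pos
  obtain ⟨T2, hT2, h2⟩ := hF.low (ε / 2) (by linarith)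
  have hC9 : 0 < C9 := by linarith [hF.hC9]
  refine ⟨min η0 (ε / (2 * C9)), lt_min hF.hη0 (by positivity), max T1 T2,
    lt_max_of_lt_left hT1, ?_⟩
  intro t ht x e hn hd
  have ht1 : T1 ≤ t := (le_max_left _ _).trans ht
  have ht2 : T2 ≤ t := (le_max_right _ _).trans ht
  have ht0 : 0 < t := lt_of_lt_of_le hT1 ht1
  have hn' := ndir_mono hn (min_le_left _ _)
  have hd' : |infDist x U - cc * t| ≤ η0 * t :=
    hd.trans (mul_le_mul_of_nonneg_right (min_le_left _ _) ht0.le)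
  obtain ⟨a1, a2⟩ := h1 t ht1 x e hn' hd'
  refine ⟨a1, a2, le_trans (Real.exp_le_exp.2 ?_) (h2 t ht2 x e hn' hd')⟩
  have : |infDist x U - cc * t| ≤ ε / (2 * C9) * t :=
    hd.trans (mul_le_mul_of_nonneg_right (min_le_right _ _) ht0.le)
  have h3 : C9 * |infDist x U - cc * t| ≤ C9 * (ε / (2 * C9) * t) := by gcongr
  have h4 : C9 * (ε / (2 * C9) * t) = ε / 2 * t := by field_simp
  linarith

/-- the trivial gain, with a unit step -/
lemma triv_gain (hTRIV : T_TRIV) {N : ℕ} {K β c g κ τ D h0 M : ℝ} {V : ℝ → E N → ℝ}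
    {h : E N → ℝ} {x e : E N} (hV : Pt K V) (hβ : 0 ≤ β) (hc : 0 ≤ c) (he : ‖e‖ = 1)
    (hm : Measurable h) (hnn : ∀ y, 0 ≤ h y) (hM : ∀ y, h y ≤ M) (h00 : 0 < h0)
    (hle : h0 ≤ ∫ y, gk V τ x (τ - 1) y * h y) (hκ : K + β ^ 2 + g ≤ κ * (D / h0)) :
    Real.log h0 + g * 1 - κ * 1 * (D / h0) ≤ Gn V h β c e 1 τ x := by
  have h1 := hTRIV N K 1 τ β c V h x e hV one_pos hβ hc he hm hnn ⟨M, hM⟩ (lt_of_lt_of_le h00 hle)
  have h2 := Real.log_le_log h00 hle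
  linarith

end Pool.Agent.H3.RF
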