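import Pool.Agent.H3.RF.Lib

/-!
# [NSUP] Gaussian tail of the kernel
-/

open MeasureTheory Set Filter Topology Metric
open Pool.Agent.H29.TF (hk P)
open Pool.Agent.H91.RD Pool.Agent.H91.RF

namespace Pool.Agent.H3.RF

/-- [NSUP] -/
theorem NSUP (hKER : T_KER) (hTAIL : T_TAIL) : T_NSUP := by
  intro N K M ρ δ L hK hM hρ hδ hL hsm
  set c : ℝ := (1 / 2 : ℝ) ^ (-(N : ℝ) / 2) with hc
  have hc0 : 0 < c := Real.rpow_pos_of_pos (by norm_num) _
  refine ⟨M * c + 1, by positivity, ?_⟩
  intro t ht V g τ s x hV hg hgM hs hst hg0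
  have ht0 : 0 < t := lt_of_lt_of_le (by positivity) ht
  have hlt : τ - s < τ := by linarith
  have hss : τ - (τ - s) = s := by ring
  have h1 : |∫ y, gk V τ x (τ - s) y * g y| ≤ ∫ y, gk V τ x (τ - s) y * |g y| := by
    rw [← Real.norm_eq_abs]
    refine (norm_integral_le_integral_norm _).trans (le_of_eq ?_)
    congr 1
    funext y
    rw [Real.norm_eq_abs, abs_mul, abs_of_nonneg (gk_nonneg hKER hV hlt x y)]
  have hint : Integrable (fun y => hk s (x - y) * (|g y| / M)) := by
    refine Pool.Agent.H29.TF.integrable_hk_mul hs (hg.abs.div_const M).aestronglyMeasurable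
      (C := 1) (fun y => ?_) x
    rw [abs_of_nonneg (by positivity)]
    exact (div_le_one hM).2 (hgM y)
  have h2 : ∫ y, gk V τ x (τ - s) y * |g y| ≤
      Real.exp (K * s) * M * P s (fun y => |g y| / M) x := by
    rw [P, ← integral_const_mul]
    refine integral_mono (gk_int hKER hV hlt x hg.abs (M := M) (by simpa using hgM))
      (hint.const_mul _) fun y => ?_
    have := ((hKER N K V hV).2.1 _ _ hlt x y).2
    rw [hss] at this
    calc gk V τ x (τ - s) y * |g y| ≤ (Real.exp (K * s) * hk s (x - y)) * |g y| :=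
          mul_le_mul_of_nonneg_right this (abs_nonneg _)
      _ = Real.exp (K * s) * M * (hk s (x - y) * (|g y| / M)) := by field_simp
  have h3 := hTAIL N (1 / 2) s (ρ * t) (by norm_num) (by norm_num) hs (by positivity) x
    (fun y => |g y| / M) (hg.abs.div_const M).aestronglyMeasurable
    (fun y => ⟨by positivity, (div_le_one hM).2 (hgM y)⟩)
    (fun y hy => by
      rw [dist_comm] at hy
      simp [hg0 y hy.le])
  have e1 : -((1 - 1 / 2) * (ρ * t) ^ 2 / (4 * s)) ≤ -(2 * (K * δ + L + 1) * t) := by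
    rw [neg_le_neg_iff, le_div_iff₀ (by positivity)]
    have a1 : 2 * (K * δ + L + 1) * t * (4 * s) ≤ 2 * (K * δ + L + 1) * t * (4 * (δ * t)) := by
      gcongr
    have a2 : 16 * δ * (K * δ + L + 1) * t ^ 2 ≤ ρ ^ 2 * t ^ 2 := by gcongr
    nlinarith
  have e2 : K * s ≤ K * δ * t := by
    calc K * s ≤ K * (δ * t) := by gcongr
      _ = _ := by ring
  calc |∫ y, gk V τ x (τ - s) y * g y|
      ≤ Real.exp (K * s) * M * P s (fun y => |g y| / M) x := h1.trans h2
    _ ≤ Real.exp (K * s) * M * (c * Real.exp (-((1 - 1 / 2) * (ρ * t) ^ 2 / (4 * s)))) := by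
        gcongr
    _ ≤ Real.exp (K * δ * t) * M * (c * Real.exp (-(2 * (K * δ + L + 1) * t))) := by gcongr
    _ = (M * c) * Real.exp (-(K * δ + 2 * L + 2) * t) := by
        have : Real.exp (-(K * δ + 2 * L + 2) * t) =
            Real.exp (K * δ * t) * Real.exp (-(2 * (K * δ + L + 1) * t)) := by
          rw [← Real.exp_add]; congr 1; ring
        rw [this]; ring
    _ ≤ Real.exp t * Real.exp (-(K * δ + 2 * L + 2) * t) := by
        gcongr
        linarith [Real.add_one_le_exp t]
    _ ≤ Real.exp (-(L * t)) := by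
        rw [← Real.exp_add]
        apply Real.exp_le_exp.2
        have : 0 ≤ K * δ * t := by positivity
        nlinarith

end Pool.Agent.H3.RF
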