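import Pool.Agent.H3.RF.RCRA

/-!
# [RCR] the tilt vanishes at the ratio
-/

open MeasureTheory Set Filter Topology Metric
open Pool.Agent.H29.TF (hk P)
open Pool.Agent.H91.RD Pool.Agent.H91.RF

namespace Pool.Agent.H3.RF

lemma exp_small' {A σ : ℝ} (hσ : 0 < σ) : ∀ᶠ t : ℝ in atTop,
    A * t * Real.exp (-(σ * t)) ≤ 1 := by
  filter_upwards [eventually_ge_atTop (2 * A / σ ^ 2), eventually_gt_atTop 0] with t ht ht0
  have h1 := Real.quadratic_le_exp_of_nonneg (x := σ * t) (by positivity)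
  have h2 : A * t ≤ Real.exp (σ * t) := by
    rw [div_le_iff₀ (by positivity)] at ht
    have : A * t * 2 ≤ t * σ ^ 2 * t := by
      calc A * t * 2 = 2 * A * t := by ring
        _ ≤ t * σ ^ 2 * t := by gcongr
    have h3 : 0 ≤ σ * t := by positivity
    nlinarith
  rw [Real.exp_neg, ← div_eq_mul_inv]
  exact (div_le_one (Real.exp_pos _)).2 h2

section

variable {N : ℕ} {u : ℝ → E N → ℝ} {V : ℝ → E N → ℝ} {K C : ℝ}

lemma zc_p' (hKER : T_KER) (hV : Pt K V) (zdt : Zc V C (dt u))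
    (zdx : ∀ h, Zc V (C * ‖h‖) (dx u h)) {e : E N} (he : ‖e‖ = 1) :
    Zc V C (fun s y => -dx u e s y) := by
  have h1 := Zc.lin hKER hV (zdx e) zdt (-1) 0
  have e1 : (fun s y => -dx u e s y) = fun s y => (-1) * dx u e s y + 0 * dt u s y := by
    funext s y; ring
  rw [e1]
  refine h1.mono ?_
  rw [he]
  simp

lemma zc_G (hKER : T_KER) (hV : Pt K V) (zdx : ∀ h, Zc V (C * ‖h‖) (dx u h)) {e v : E N}
    (he : ‖e‖ = 1) (hv : ‖v‖ = 1) {R : ℝ} (hR : 0 ≤ R) :
    Zc V ((R + 1) * C) (fun s y => R * -dx u e s y - dx u v s y) := by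
  have h1 := Zc.lin hKER hV (zdx e) (zdx v) (-R) (-1)
  have e1 : (fun s y => R * -dx u e s y - dx u v s y) =
      fun s y => (-R) * dx u e s y + (-1) * dx u v s y := by
    funext s y; ring
  rw [e1]
  refine h1.mono ?_
  rw [he, hv, abs_neg, abs_neg, abs_one, abs_of_nonneg hR]
  linarith

end

/-- one step down -/
lemma tilt_step (hKER : T_KER) (hNSUP : T_NSUP) (hUPB : T_UPB) (hTRIV : T_TRIV) (hCHN : T_CHN)
    (hLIR : T_LIR) {N : ℕ} {f : ℝ → ℝ} {K cc C0 C9 η0 C : ℝ} {U : Set (E N)} {u : ℝ → E N → ℝ}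
    (hS : Stg f K U u) (hcc : 0 < cc) (hF : Frm U u cc C0 C9 η0) (hSat : SatW f U u cc)
    (hV : Pt K (pot f u)) (hC1 : 1 ≤ C) (hCb : ∀ t ≥ 1, ∀ x, gr u t x ≤ C ∧ |dt u t x| ≤ C)
    (zdt : Zc (pot f u) C (dt u)) (zdx : ∀ h, Zc (pot f u) (C * ‖h‖) (dx u h)) {R : ℝ}
    (hR : 0 < R) (hT : TiltB U u cc R) (hZ : AhR U u cc R) :
    ∃ ε4 > 0, ∃ η > 0, ∃ T > 0, ∀ t ≥ T, ∀ x e, NDir U η x e →
      |infDist x U - cc * t| ≤ η * t → ∀ h, ‖h‖ = 1 → inner ℝ h e = 0 →
      dx u h t x ≤ (R - 2 * ε4) * -dx u e t x := by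
  have hK := hV.K0
  obtain ⟨g, hg, ηa, hηa, ηL, hηL, TL, hTL, hlir⟩ :=
    hLIR N f K cc C0 C9 η0 U u hS hcc hF hSat R hR hT
  obtain ⟨L, hL, hchn⟩ := hCHN N K (cc / 2) cc hS.N1 hK (by positivity) hcc
  have hL0 : 0 < L := by linarith
  set κ : ℝ := (K + (cc / 2) ^ 2 + g) / ηa with hκdef
  have hκ : 0 < κ := by positivity
  obtain ⟨ε4, hε4, he1, he2⟩ : ∃ ε4 : ℝ, 0 < ε4 ∧ κ * (3 * ε4) ≤ g / 4 ∧
      cc / 2 * (L + cc + 1) * (6 * ε4 / R) ≤ g / 16 := by
    refine ⟨min (g / (12 * κ)) (g * R / (48 * cc * (L + cc + 1))), by positivity, ?_, ?_⟩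
    · calc κ * (3 * _) ≤ κ * (3 * (g / (12 * κ))) := by gcongr; exact min_le_left _ _
        _ = g / 4 := by field_simp; norm_num
    · calc cc / 2 * (L + cc + 1) * (6 * _ / R)
          ≤ cc / 2 * (L + cc + 1) * (6 * (g * R / (48 * cc * (L + cc + 1))) / R) := by
            gcongr; exact min_le_right _ _
        _ = g / 16 := by field_simp; norm_num
  obtain ⟨ηT, hηT, TT, hTT, htl⟩ := hT ε4 hε4
  obtain ⟨η1, hη1, T1, hT1, hlow1⟩ := frm_low hF 1 one_pos
  obtain ⟨ρb, hρb, hρb2, -, Tb, hTb, hbox'⟩ := box hUPB hS.condC hS.ne hcc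
    (min ηL (min η1 ηT)) (by positivity)
  obtain ⟨ρA, hρA, hZ⟩ := hZ
  obtain ⟨ρ, hρ, hρρb, hρρA⟩ : ∃ ρ : ℝ, 0 < ρ ∧ ρ ≤ ρb ∧ ρ ≤ ρA :=
    ⟨min ρb ρA, by positivity, min_le_left _ _, min_le_right _ _⟩
  have hρ2 : ρ ≤ 1 / 2 := hρρb.trans hρb2
  obtain ⟨δ, hδ, hδ1, hLδ, hδs⟩ : ∃ δ : ℝ, 0 < δ ∧ δ ≤ 1 ∧ L * δ ≤ ρ / 2 ∧
      16 * δ * (K * δ + 5 + 1) ≤ (ρ / 2) ^ 2 := by
    refine ⟨min (min 1 (ρ / (2 * L))) (ρ ^ 2 / (64 * (K + 6))), by positivity,
      (min_le_left _ _).trans (min_le_left _ _), ?_, ?_⟩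
    · calc L * _ ≤ L * (ρ / (2 * L)) := by
            gcongr; exact (min_le_left _ _).trans (min_le_right _ _)
        _ = ρ / 2 := by field_simp
    · set m := min (min 1 (ρ / (2 * L))) (ρ ^ 2 / (64 * (K + 6))) with hm
      have h1 : m ≤ 1 := (min_le_left _ _).trans (min_le_left _ _)
      have h2 : m ≤ ρ ^ 2 / (64 * (K + 6)) := min_le_right _ _
      have h0 : 0 < m := by positivity
      calc 16 * m * (K * m + 5 + 1) ≤ 16 * (ρ ^ 2 / (64 * (K + 6))) * (K * 1 + 5 + 1) := by gcongr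
        _ = (ρ / 2) ^ 2 := by field_simp; ring
  have hδρ : δ ≤ ρ / 2 := (le_mul_of_one_le_left hδ.le hL).trans hLδ
  set Mb : ℝ := (R + ε4 + 1) * C with hMb
  have hMb0 : 0 < Mb := by positivity
  have hCMb : C ≤ Mb := by
    have : 1 * C ≤ (R + ε4 + 1) * C := by gcongr; linarith
    linarith
  obtain ⟨ε2, hε2, hε2a, hε2b⟩ : ∃ ε2 : ℝ, 0 < ε2 ∧ ε2 ≤ δ ∧ ε2 ≤ g * δ / 16 :=
    ⟨min δ (g * δ / 16), by positivity, min_le_left _ _, min_le_right _ _⟩
  obtain ⟨η2, hη2, T2, hT2, hlow2⟩ := frm_low hF ε2 hε2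
  obtain ⟨ηZ, hηZ, TZ, hTZ, hZ⟩ := hZ (g * δ / 16) (by positivity)
  obtain ⟨Tn, hTn, hns⟩ := hNSUP N K Mb (ρ / 2) δ 5 hK hMb0 (by linarith) hδ (by norm_num) hδs
  obtain ⟨Tc, hTc, hch⟩ := hchn δ 1 g κ Mb 1 hδ hδ1 one_pos hg hκ.le (hC1.trans hCMb) one_pos
  obtain ⟨ηf, hηf, hf1, hf2, hf3, hf4, hf5⟩ : ∃ η : ℝ, 0 < η ∧ η ≤ ρ ∧ η ≤ ηZ ∧ η ≤ η2 ∧
      η ≤ δ ∧ cc / 2 * η ≤ g * δ / 16 := by
    refine ⟨min (min ρ ηZ) (min η2 (min δ (g * δ / (8 * cc)))), by positivity,
      (min_le_left _ _).trans (min_le_left _ _), (min_le_left _ _).trans (min_le_right _ _),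
      (min_le_right _ _).trans (min_le_left _ _),
      (min_le_right _ _).trans ((min_le_right _ _).trans (min_le_left _ _)), ?_⟩
    calc cc / 2 * _ ≤ cc / 2 * (g * δ / (8 * cc)) := by
          gcongr
          exact (min_le_right _ _).trans ((min_le_right _ _).trans (min_le_right _ _))
      _ = g * δ / 16 := by field_simp; norm_num
  set B0 : ℝ := cc / 2 * (L + cc + 1) * δ with hB0
  have hB00 : 0 < B0 := by positivity
  have hev : ∀ᶠ t in atTop, (2 * TL ≤ t ∧ 2 * T1 ≤ t ∧ Tb ≤ t ∧ 2 * TT ≤ t) ∧ (T2 ≤ t ∧ Tn ≤ t ∧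
      Tc ≤ t ∧ 2 ≤ t) ∧ (2 / δ ≤ t ∧ TZ ≤ t ∧ B0 * t * Real.exp (-(1 * t)) ≤ 1 ∧
      2 * (Real.log Mb + 3 + g) / (g * δ) ≤ t ∧ 2 / R + 1 ≤ t) :=
    ((eventually_ge_atTop _).and ((eventually_ge_atTop _).and ((eventually_ge_atTop _).and
      (eventually_ge_atTop _)))).and (((eventually_ge_atTop _).and ((eventually_ge_atTop _).and
      ((eventually_ge_atTop _).and (eventually_ge_atTop _)))).and ((eventually_ge_atTop _).and
      ((eventually_ge_atTop _).and ((exp_small' one_pos).and ((eventually_ge_atTop _).and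
      (eventually_ge_atTop _))))))
  obtain ⟨T3, hT3⟩ := eventually_atTop.1 hev
  refine ⟨ε4, hε4, ηf, hηf, max T3 1, by positivity, ?_⟩
  intro t ht x0 e hn hd v hv hve
  obtain ⟨⟨s1, s2, s3, s4⟩, ⟨s5, s6, s7, s8⟩, s9, s10, s11, s12, s13⟩ :=
    hT3 t ((le_max_left _ _).trans ht)
  by_contra hcon
  push Not at hcon
  have ht0 : 0 < t := by linarith
  have he : ‖e‖ = 1 := hn.1
  have zp := zc_p' hKER hV zdt zdx he
  have zG := zc_G hKER hV zdx he hv (R := R + ε4) (by positivity)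
  rw [← hMb] at zG
  have hdρ : |infDist x0 U - cc * t| ≤ ρb * t := hd.trans (by gcongr; exact hf1.trans hρρb)
  have hnρ := ndir_mono hn (hf1.trans hρρb)
  -- the number of steps
  set n : ℕ := ⌊δ * t⌋₊ with hndef
  have hδt2 : 2 ≤ δ * t := by
    rw [div_le_iff₀ hδ] at s9
    linarith
  have hn1 : (n : ℝ) ≤ δ * t := Nat.floor_le (by positivity)
  have hn2 : δ * t - 1 < n := Nat.sub_one_lt_floor _
  have hn3 : 1 ≤ n := by
    have : (1 : ℝ) < n := by linarith
    exact_mod_cast this.le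
  have hδt : δ * t ≤ ρ / 2 * t := by gcongr
  have hρt : ρ * t ≤ 1 / 2 * t := by gcongr
  have hρt0 : 0 < ρ * t := by positivity
  have hρbt : ρ * t ≤ ρb * t := by gcongr
  have htime : ∀ j : ℕ, j ≤ n → t - j ∈ Icc ((1 - ρb) * t) t ∧ t / 2 ≤ t - j ∧ 1 ≤ t - j := by
    intro j hj
    have : (j : ℝ) ≤ n := by exact_mod_cast hj
    have hj0 : (0 : ℝ) ≤ j := Nat.cast_nonneg j
    exact ⟨⟨by linarith, by linarith⟩, by linarith, by linarith⟩
  -- box facts
  have hB : ∀ j : ℕ, j ≤ n → ∀ y, dist y x0 ≤ ρ * t → 0 < -dx u e (t - j) y ∧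
      Real.exp (-t) ≤ -dx u e (t - j) y ∧ NDir U ηL y e ∧
      |infDist y U - cc * (t - j)| ≤ ηL * (t - j) ∧
      0 ≤ (R + ε4) * -dx u e (t - j) y - dx u v (t - j) y := by
    intro j hj y hy
    obtain ⟨c1, c2, c3⟩ := htime j hj
    obtain ⟨b1, b2⟩ := hbox' t s3 x0 e hnρ hdρ (t - j) c1 y (hy.trans hρbt)
    have c0 : 0 ≤ t - j := by linarith
    have m1 : min ηL (min η1 ηT) ≤ η1 := (min_le_right _ _).trans (min_le_left _ _)
    have m2 : min ηL (min η1 ηT) ≤ ηT := (min_le_right _ _).trans (min_le_right _ _)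
    obtain ⟨l1, -, l3⟩ := hlow1 (t - j) (by linarith) y e (ndir_mono b1 m1)
      (b2.trans (mul_le_mul_of_nonneg_right m1 c0))
    have l4 := htl (t - j) (by linarith) y e (ndir_mono b1 m2)
      (b2.trans (mul_le_mul_of_nonneg_right m2 c0)) v hv hve
    refine ⟨l1, le_trans (Real.exp_le_exp.2 ?_) l3, ndir_mono b1 (min_le_left _ _),
      b2.trans (mul_le_mul_of_nonneg_right (min_le_left _ _) c0), by linarith⟩
    have : (0 : ℝ) ≤ j := Nat.cast_nonneg j
    linarith
  have hball : ∀ x ∈ closedBall x0 (L * δ * t), dist x x0 ≤ ρ / 2 * t := by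
    intro x hx
    rw [mem_closedBall] at hx
    exact hx.trans (by gcongr)
  have hball' : ∀ x ∈ closedBall x0 (L * δ * t), dist x x0 ≤ ρ * t := fun x hx =>
    (hball x hx).trans (by linarith)
  -- the point
  obtain ⟨p1, -, p3⟩ := hlow2 t s5 x0 e (ndir_mono hn hf3) (hd.trans (by gcongr))
  have hp1t : Real.exp (-t) ≤ -dx u e t x0 := by
    have := (hB 0 (Nat.zero_le _) x0 (by rw [dist_self]; exact hρt0.le)).2.1
    simpa using this
  set p : ℝ := -dx u e t x0 with hp
  have hG0 : (R + ε4) * p - dx u v t x0 ≤ 3 * ε4 * p := by linarith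
  have hG00 : 0 ≤ (R + ε4) * p - dx u v t x0 := by
    have := (hB 0 (Nat.zero_le _) x0 (by rw [dist_self]; exact hρt0.le)).2.2.2.2
    simp only [Nat.cast_zero, sub_zero] at this
    exact this
  have hlogh : -(ε2 * t) ≤ Real.log p := by
    rw [Real.le_log_iff_exp_le p1]
    exact p3
  have hR0' : 0 ≤ Real.log Mb := Real.log_nonneg (hC1.trans hCMb)
  set B1 : ℝ := Real.log Mb + g * δ / 16 * t with hB1
  have hB10 : 0 ≤ B1 := add_nonneg hR0' (by positivity)
  set PA : ℝ := 6 * ε4 / R + Real.exp (-(1 * t)) with hPA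
  set A : Set (E N) := {y | dx u v (t - n) y ≤ R / 2 * -dx u e (t - n) y} with hAdef
  obtain ⟨-, -, cn3⟩ := htime n le_rfl
  have hAm : MeasurableSet A := by
    refine measurableSet_le ?_ ?_
    · exact (zdx v).meas _ cn3
    · exact (zp.meas _ cn3).const_mul _
  have hd' := abs_le.1 hd
  have key := hch t s7 n (pot f u) (fun s y => max (-dx u e s y) 0)
    (fun s y => max ((R + ε4) * -dx u e s y - dx u v s y) 0) x0 e A
    (infDist x0 U) B1 (B0 * t) PA hn3 (by rw [mul_one]; exact hn1) he hV hAm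
    (hd.trans (mul_le_of_le_one_left ht0.le (hf4.trans hδ1))) hB10 (by positivity)
    ?_ ?_ ?_ ?_ ?_ ?_ ?_ ?_
  · -- conclusion
    have k1 : max (-dx u e t x0) 0 = p := max_eq_left p1.le
    have k1' : max ((R + ε4) * -dx u e t x0 - dx u v t x0) 0 = (R + ε4) * p - dx u v t x0 :=
      max_eq_left hG00
    simp only [mul_one, k1, k1'] at key
    have k2 : κ * n * (((R + ε4) * p - dx u v t x0) / p) ≤ n * (g / 4) := by
      have h1 : ((R + ε4) * p - dx u v t x0) / p ≤ 3 * ε4 := by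
        rw [div_le_iff₀ p1]
        exact hG0
      calc κ * n * (((R + ε4) * p - dx u v t x0) / p) ≤ κ * n * (3 * ε4) := by gcongr
        _ = n * (κ * (3 * ε4)) := by ring
        _ ≤ n * (g / 4) := by gcongr
    have k3 : B0 * t * PA ≤ g / 16 * (δ * t) + 1 := by
      have h1 : B0 * t * (6 * ε4 / R) ≤ g / 16 * (δ * t) := by
        calc B0 * t * (6 * ε4 / R) = (cc / 2 * (L + cc + 1) * (6 * ε4 / R)) * (δ * t) := by
              rw [hB0]; ring
          _ ≤ g / 16 * (δ * t) := by gcongr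
      rw [hPA, mul_add]
      linarith
    have k4 : -(g * δ / 16 * t) ≤ cc / 2 * (infDist x0 U - cc * t) := by
      have h1 : cc / 2 * (-(ηf * t)) ≤ cc / 2 * (infDist x0 U - cc * t) := by
        gcongr; exact hd'.1
      have h2 : cc / 2 * ηf * t ≤ g * δ / 16 * t := by gcongr
      linarith
    have k6 : ε2 * t ≤ g * δ / 16 * t := by gcongr
    have k7 : 2 * (Real.log Mb + 3 + g) ≤ g * δ * t := by
      rw [div_le_iff₀ (by positivity)] at s12
      linarith
    have k8 : g * (δ * t - 1) ≤ g * n := by gcongr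
    rw [hB1] at key
    linarith
  · -- measurability and bounds
    intro s hs
    have hs1 : 1 ≤ s := by linarith [hs.1]
    refine ⟨(zp.meas s hs1).max measurable_const, (zG.meas s hs1).max measurable_const, fun y =>
      ⟨le_max_right _ _, max_le ?_ hMb0.le, le_max_right _ _, max_le ?_ hMb0.le⟩⟩
    · exact ((le_abs_self _).trans (zp.bdd s hs1 y)).trans hCMb
    · exact (le_abs_self _).trans (zG.bdd s hs1 y)
  · intro j hj x hx
    rw [mul_one, one_mul]
    obtain ⟨b1, b2, -⟩ := hB j hj x (hball' x hx)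
    exact b2.trans (le_max_left _ _)
  · intro j hj x hx
    rw [mul_one]
    obtain ⟨-, -, c3⟩ := htime (j + 1) hj
    push_cast at c3
    exact zp.pos_le hKER hV (by linarith) (by linarith) x
  · intro j hj x hx
    rw [mul_one]
    obtain ⟨-, -, c3⟩ := htime (j + 1) hj
    push_cast at c3
    have hnear := zG.near hKER hV (s := t - j - 1) (t := t - j) (B := Real.exp (-(5 * t)))
      (r := ρ / 2 * t) (by linarith) (by linarith) x
      (fun g hg hgC hg0 => hns t s6 (pot f u) g (t - j) 1 x hV hg hgC one_pos (by linarith) hg0)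
      (fun y hy => by
        have h1 : dist y x0 ≤ ρ * t := by
          have := dist_triangle y x x0
          have := hball x hx
          linarith
        have h2 := (hB (j + 1) hj y h1).2.2.2.2
        push_cast at h2
        rw [show t - j - 1 = t - (j + 1 : ℝ) by ring]
        exact h2)
    refine hnear.trans (add_le_add (le_max_left _ _) ?_)
    obtain ⟨b1, b2, -⟩ := hB j hj.le x (hball' x hx)
    calc Real.exp (-(5 * t)) ≤ Real.exp (-t) * Real.exp (-t) := by
          rw [← Real.exp_add]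
          apply Real.exp_le_exp.2
          linarith
      _ ≤ Real.exp (-t) * max (-dx u e (t - j) x) 0 := by
          gcongr
          exact b2.trans (le_max_left _ _)
  · -- local gain
    intro j hj x hx
    simp only [mul_one]
    obtain ⟨-, c2, c3⟩ := htime (j + 1) hj
    push_cast at c2 c3
    obtain ⟨b1, b2, b3, b4, b5⟩ := hB j hj.le x (hball' x hx)
    have hjt : TL ≤ t - j := by
      have : (0 : ℝ) ≤ j := Nat.cast_nonneg j
      linarith
    have hk1 : max (-dx u e (t - j) x) 0 = -dx u e (t - j) x := max_eq_left b1.le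
    have hk2 : max ((R + ε4) * -dx u e (t - j) x - dx u v (t - j) x) 0 =
        (R + ε4) * -dx u e (t - j) x - dx u v (t - j) x := max_eq_left b5
    rcases le_or_gt ((R - ηa) * -dx u e (t - j) x) (dx u v (t - j) x) with h | h
    · have h1 := hlir (t - j) hjt x e v b3 b4 hv hve h
      have h2 : 0 ≤ κ * (((R + ε4) * -dx u e (t - j) x - dx u v (t - j) x) /
          -dx u e (t - j) x) := by positivity
      rw [hk1, hk2]
      linarith
    · have hs1 : 1 ≤ t - j - 1 := by linarith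
      have h1 := zp.pos_le hKER hV (s := t - j - 1) (t := t - j) hs1 (by linarith) x
      rw [hk1] at h1
      have h2 := triv_gain hTRIV (g := g) (κ := κ)
        (D := (R + ε4) * -dx u e (t - j) x - dx u v (t - j) x) (e := e) (c := cc) hV
        (show 0 ≤ cc / 2 by positivity) hcc.le he ((zp.meas _ hs1).max measurable_const)
        (fun y => le_max_right _ _)
        (fun y => max_le ((le_abs_self _).trans (zp.bdd _ hs1 y)) (by linarith)) b1 h1 ?_
      · rw [hk1, hk2]
        simpa using h2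
      · have h3 : ηa ≤ ((R + ε4) * -dx u e (t - j) x - dx u v (t - j) x) /
            -dx u e (t - j) x := by
          rw [le_div_iff₀ b1]
          have : 0 ≤ ε4 * -dx u e (t - j) x := by positivity
          linarith
        calc K + (cc / 2) ^ 2 + g = κ * ηa := by rw [hκdef]; field_simp
          _ ≤ _ := by gcongr
  · refine le_trans (Real.exp_le_exp.2 ?_) (p3.trans (le_max_left _ _))
    have : ε2 * t ≤ δ * t := by gcongr
    linarith
  · -- terminal values
    intro y hy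
    rw [mul_one]
    have hy' := hball' y hy
    obtain ⟨b1, b2, -⟩ := hB n le_rfl y hy'
    have hk1 : max (-dx u e (t - n) y) 0 = -dx u e (t - n) y := max_eq_left b1.le
    simp only [hk1]
    have hl : Real.log (-dx u e (t - n) y) ≤ Real.log Mb :=
      Real.log_le_log b1 (((le_abs_self _).trans (zp.bdd _ cn3 y)).trans hCMb)
    have hin : inner ℝ (y - x0) e ≤ L * δ * t := by
      have h1 := real_inner_le_norm (y - x0) e
      rw [he, mul_one, ← dist_eq_norm] at h1
      rw [mem_closedBall] at hy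
      linarith
    rcases hZ t s10 x0 e (ndir_mono hn hf2) (hd.trans (by gcongr)) n (Nat.cast_nonneg n)
      (by have : ρ * t ≤ ρA * t := by gcongr
          linarith) y (hy'.trans (by gcongr)) with h | h
    · left
      rw [hB1]
      linarith
    · right
      refine ⟨h v hv hve, ?_⟩
      have h1 : infDist x0 U + inner ℝ (y - x0) e - cc * (t - n) ≤ (L + cc + 1) * δ * t := by
        have h2 : ηf * t ≤ δ * t := by gcongr
        have h3 : cc * n ≤ cc * (δ * t) := by gcongr
        linarith [hd'.2]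
      have h2 : cc / 2 * (infDist x0 U + inner ℝ (y - x0) e - cc * (t - n)) ≤
          cc / 2 * ((L + cc + 1) * δ * t) := by gcongr
      have h3 : 0 ≤ g * δ / 16 * t := by positivity
      rw [hB1, hB0]
      linarith
  · -- the region ahead
    rw [mul_one]
    have hn0 : (0 : ℝ) < n := by exact_mod_cast hn3
    have hlt : t - n < t := by linarith
    have hG1 : ∀ y, A.indicator (fun y => max (-dx u e (t - n) y) 0) y ≤
        2 / R * max ((R + ε4) * -dx u e (t - n) y - dx u v (t - n) y) 0 := by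
      intro y
      have hm0 : 0 ≤ max ((R + ε4) * -dx u e (t - n) y - dx u v (t - n) y) 0 := le_max_right _ _
      by_cases hyA : y ∈ A
      · rw [indicator_of_mem hyA]
        have hyA' : dx u v (t - n) y ≤ R / 2 * -dx u e (t - n) y := hyA
        rcases le_total (-dx u e (t - n) y) 0 with h | h
        · rw [max_eq_right h]
          positivity
        · rw [max_eq_left h]
          have h1 : R / 2 * -dx u e (t - n) y ≤
              max ((R + ε4) * -dx u e (t - n) y - dx u v (t - n) y) 0 := by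
            refine le_trans ?_ (le_max_left _ _)
            have : 0 ≤ ε4 * -dx u e (t - n) y := by positivity
            linarith
          have h2 : 2 / R * (R / 2 * -dx u e (t - n) y) ≤
              2 / R * max ((R + ε4) * -dx u e (t - n) y - dx u v (t - n) y) 0 := by gcongr
          have e1 : 2 / R * (R / 2 * -dx u e (t - n) y) = -dx u e (t - n) y := by field_simp
          linarith
      · rw [indicator_of_notMem hyA]
        positivity
    have hb1 : ∀ y, |max (-dx u e (t - n) y) 0| ≤ C := fun y => by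
      rw [abs_of_nonneg (le_max_right _ _)]
      exact max_le ((le_abs_self _).trans (zp.bdd _ cn3 y)) (by linarith)
    have hb1' : ∀ y, |A.indicator (fun y => max (-dx u e (t - n) y) 0) y| ≤ C := fun y => by
      by_cases hyA : y ∈ A
      · rw [indicator_of_mem hyA]; exact hb1 y
      · rw [indicator_of_notMem hyA, abs_zero]; linarith
    have hb2 : ∀ y, |2 / R * max ((R + ε4) * -dx u e (t - n) y - dx u v (t - n) y) 0| ≤
        2 / R * Mb := fun y => by
      rw [abs_of_nonneg (mul_nonneg (by positivity) (le_max_right _ _))]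
      gcongr
      exact max_le ((le_abs_self _).trans (zG.bdd _ cn3 y)) hMb0.le
    have i1 := gk_mono hKER hV hlt x0 (((zp.meas _ cn3).max measurable_const).indicator hAm) hb1'
      (((zG.meas _ cn3).max measurable_const).const_mul (2 / R)) hb2 hG1
    have i2 : ∫ y, gk (pot f u) t x0 (t - n) y *
        (2 / R * max ((R + ε4) * -dx u e (t - n) y - dx u v (t - n) y) 0) =
        2 / R * ∫ y, gk (pot f u) t x0 (t - n) y *
          max ((R + ε4) * -dx u e (t - n) y - dx u v (t - n) y) 0 := by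
      rw [← integral_const_mul]
      congr 1
      funext y
      ring
    have i3 := zG.near hKER hV (s := t - n) (t := t) (B := Real.exp (-(5 * t)))
      (r := ρ / 2 * t) cn3 hlt x0
      (fun g hg hgC hg0 => hns t s6 (pot f u) g t n x0 hV hg hgC hn0 hn1 hg0)
      (fun y hy => (hB n le_rfl y (hy.trans (by linarith))).2.2.2.2)
    rw [i2] at i1
    refine i1.trans ?_
    have h1 : 2 / R * ∫ y, gk (pot f u) t x0 (t - n) y *
          max ((R + ε4) * -dx u e (t - n) y - dx u v (t - n) y) 0 ≤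
        2 / R * (3 * ε4 * p + Real.exp (-(5 * t))) := by
      gcongr
      refine i3.trans ?_
      have : (R + ε4) * -dx u e t x0 - dx u v t x0 ≤ 3 * ε4 * p := hG0
      linarith
    refine h1.trans ?_
    have h2 : max (-dx u e t x0) 0 = p := max_eq_left p1.le
    rw [h2, hPA]
    have h3 : 2 / R * Real.exp (-(5 * t)) ≤ Real.exp (-(1 * t)) * p := by
      have e1 : 2 / R ≤ Real.exp t := by
        have := Real.add_one_le_exp t
        linarith
      calc 2 / R * Real.exp (-(5 * t)) ≤ Real.exp t * Real.exp (-(5 * t)) := by gcongr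
        _ ≤ Real.exp (-(1 * t)) * Real.exp (-t) := by
            rw [← Real.exp_add, ← Real.exp_add]
            apply Real.exp_le_exp.2
            linarith
        _ ≤ Real.exp (-(1 * t)) * p := by gcongr
    have h4 : 2 / R * (3 * ε4 * p) = 6 * ε4 / R * p := by ring
    rw [mul_add, add_mul, h4]
    linarith

theorem RCR (hKER : T_KER) (hNSUP : T_NSUP) (hGEOB : T_GEOB) (hUPB : T_UPB) (hKREP : T_KREP)
    (hLINU : T_LINU) (hTRIV : T_TRIV) (hCHN : T_CHN) (hLIR : T_LIR) : T_RCR := by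
  intro N f K cc lo hi C0 C9 η0 U u hS hMac hF hAh hSat
  obtain ⟨hV, C, hC1, hCb, zdt, zdx⟩ := zc_dx hLINU hKREP hS
  have hcc := hMac.cpos
  set S : Set ℝ := {R | 0 ≤ R ∧ TiltB U u cc R} with hSdef
  have hbdd : BddBelow S := ⟨0, fun R hR => hR.1⟩
  have hne : S.Nonempty := by
    refine ⟨C0, by linarith [hF.hC0], ?_⟩
    intro ε hε
    obtain ⟨T, hT, h1⟩ := hF.pos
    refine ⟨η0, hF.hη0, T, hT, fun t ht x e hn hd h hh _ => ?_⟩
    obtain ⟨a1, a2⟩ := h1 t ht x e hn hd
    have a3 : dx u h t x ≤ gr u t x := by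
      have := (fderiv ℝ (u t) x).le_opNorm h
      rw [hh, mul_one] at this
      exact (le_abs_self _).trans this
    have a4 : 0 ≤ ε * -dx u e t x := by positivity
    linarith
  set Rs : ℝ := sInf S with hRs
  have hRs0 : 0 ≤ Rs := le_csInf hne fun R hR => hR.1
  have hTs : TiltB U u cc Rs := by
    intro ε hε
    obtain ⟨R, hRS, hR⟩ := exists_lt_of_csInf_lt hne (show Rs < Rs + ε / 2 by linarith)
    obtain ⟨η, hη, T, hT, h1⟩ := hRS.2 (ε / 2) (by linarith)
    obtain ⟨T', hT', h2⟩ := hF.pos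
    refine ⟨min η η0, lt_min hη hF.hη0, max T T', lt_max_of_lt_left hT,
      fun t ht x e hn hd h hh hhe => ?_⟩
    have ht1 : T ≤ t := (le_max_left _ _).trans ht
    have ht0 : 0 < t := lt_of_lt_of_le hT ht1
    have a1 := h1 t ht1 x e (ndir_mono hn (min_le_left _ _))
      (hd.trans (mul_le_mul_of_nonneg_right (min_le_left _ _) ht0.le)) h hh hhe
    have a2 := (h2 t ((le_max_right _ _).trans ht) x e (ndir_mono hn (min_le_right _ _))
      (hd.trans (mul_le_mul_of_nonneg_right (min_le_right _ _) ht0.le))).1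
    exact a1.trans (mul_le_mul_of_nonneg_right (by linarith) a2.le)
  have hRs00 : Rs = 0 := by
    by_contra hne0
    have hpos : 0 < Rs := lt_of_le_of_ne hRs0 (Ne.symm hne0)
    have hZ : AhR U u cc Rs := by
      rcases hAh with h | h
      · exact ahR_D hGEOB hUPB hS hcc hF h hCb Rs
      · exact ahR_W hGEOB hUPB hS hcc hF h hCb hpos
    obtain ⟨ε4, hε4, η, hη, T, hT, h1⟩ := tilt_step hKER hNSUP hUPB hTRIV hCHN hLIR hS hcc hF hSat
      hV hC1 hCb zdt zdx hpos hTs hZ
    obtain ⟨T', hT', h2⟩ := hF.pos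
    have hmem : max (Rs - 2 * ε4) 0 ∈ S := by
      refine ⟨le_max_right _ _, fun ε hε => ⟨min η η0, lt_min hη hF.hη0, max T T',
        lt_max_of_lt_left hT, fun t ht x e hn hd h hh hhe => ?_⟩⟩
      have ht1 : T ≤ t := (le_max_left _ _).trans ht
      have ht0 : 0 < t := lt_of_lt_of_le hT ht1
      have a1 := h1 t ht1 x e (ndir_mono hn (min_le_left _ _))
        (hd.trans (mul_le_mul_of_nonneg_right (min_le_left _ _) ht0.le)) h hh hhe
      have a2 := (h2 t ((le_max_right _ _).trans ht) x e (ndir_mono hn (min_le_right _ _))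
        (hd.trans (mul_le_mul_of_nonneg_right (min_le_right _ _) ht0.le))).1
      refine a1.trans ?_
      have a3 : Rs - 2 * ε4 ≤ max (Rs - 2 * ε4) 0 + ε := by
        linarith [le_max_left (Rs - 2 * ε4) 0]
      exact mul_le_mul_of_nonneg_right a3 a2.le
    have h3 : Rs ≤ max (Rs - 2 * ε4) 0 := csInf_le hbdd hmem
    have h4 : max (Rs - 2 * ε4) 0 < Rs := max_lt (by linarith) hpos
    exact absurd h3 (not_le.2 h4)
  rw [hRs00] at hTs
  intro ε hε
  obtain ⟨η, hη, T, hT, h1⟩ := hTs ε hε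
  obtain ⟨T', hT', h2⟩ := hF.pos
  refine ⟨min η η0, lt_min hη hF.hη0, max T T', lt_max_of_lt_left hT, fun t ht x e hn hd => ?_⟩
  have ht1 : T ≤ t := (le_max_left _ _).trans ht
  have ht0 : 0 < t := lt_of_lt_of_le hT ht1
  have a1 := h1 t ht1 x e (ndir_mono hn (min_le_left _ _))
    (hd.trans (mul_le_mul_of_nonneg_right (min_le_left _ _) ht0.le))
  have a2 := (h2 t ((le_max_right _ _).trans ht) x e (ndir_mono hn (min_le_right _ _))
    (hd.trans (mul_le_mul_of_nonneg_right (min_le_right _ _) ht0.le))).1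
  refine norm_le_of_tilt (fderiv ℝ (u t) x) hn.1 a2.le hε.le fun h hh hhe => ?_
  have := a1 h hh hhe
  rw [zero_add] at this
  exact this

end Pool.Agent.H3.RF
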