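import Pool.Agent.H3.RF.Lib2

/-!
# [RCR] linear algebra and the region ahead
-/

open MeasureTheory Set Filter Topology Metric
open Pool.Agent.H29.TF (hk P)
open Pool.Agent.H91.RD Pool.Agent.H91.RF

namespace Pool.Agent.H3.RF

section

variable {N : ℕ}

/-- if `-L ey` is almost the norm of `L`, then `L` is small in orthogonal directions -/
lemma tilt_small (L : E N →L[ℝ] ℝ) {ey h : E N} {θ ε : ℝ} (hey : ‖ey‖ = 1) (hh : ‖h‖ = 1)
    (hL : ‖L‖ ≤ (1 + θ) * -L ey) (hθ : 0 < θ) (hθ1 : θ ≤ 1) (hε : |inner ℝ h ey| ≤ ε)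
    (hp : 0 ≤ -L ey) : L h ≤ (2 * √θ + ε) * -L ey := by
  set p : ℝ := -L ey with hpdef
  set i : ℝ := inner ℝ h ey with hi
  set h' : E N := h - i • ey with hh'
  have horth : inner ℝ h' ey = 0 := by
    rw [hh', inner_sub_left, inner_smul_left, real_inner_self_eq_norm_sq, hey]
    simp [← hi]
  have hn' : ‖h'‖ ^ 2 ≤ 1 := by
    have h1 : ‖h‖ ^ 2 = ‖h'‖ ^ 2 + i ^ 2 := by
      have e1 : h = h' + i • ey := by rw [hh']; abel
      have h2 : ‖h' + i • ey‖ ^ 2 = ‖h'‖ ^ 2 + 2 * inner ℝ h' (i • ey) + ‖i • ey‖ ^ 2 :=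
        norm_add_sq_real _ _
      rw [← e1, inner_smul_right, horth, norm_smul, hey] at h2
      rw [h2]
      simp
    rw [hh] at h1
    nlinarith [sq_nonneg i]
  set s : ℝ := √θ with hs
  have hs0 : 0 < s := Real.sqrt_pos.2 hθ
  have hs2 : s ^ 2 = θ := Real.sq_sqrt hθ.le
  have hnorm : ‖s • h' - ey‖ ≤ 1 + θ / 2 := by
    have h2 : ‖s • h' - ey‖ ^ 2 = ‖s • h'‖ ^ 2 - 2 * inner ℝ (s • h') ey + ‖ey‖ ^ 2 :=
      norm_sub_sq_real _ _
    rw [inner_smul_left, horth, norm_smul, hey, Real.norm_eq_abs, abs_of_pos hs0, mul_pow, hs2]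
      at h2
    have h3 : ‖s • h' - ey‖ ^ 2 ≤ (1 + θ / 2) ^ 2 := by
      have : θ * ‖h'‖ ^ 2 ≤ θ * 1 := by gcongr
      simp only [mul_zero, sub_zero] at h2
      have e1 : (1 + θ / 2) ^ 2 = 1 + θ + θ ^ 2 / 4 := by ring
      have e2 : 0 ≤ θ ^ 2 / 4 := by positivity
      linarith
    exact le_of_sq_le_sq h3 (by linarith)
  have h4 : L (s • h' - ey) ≤ ‖L‖ * ‖s • h' - ey‖ := (le_abs_self _).trans (L.le_opNorm _)
  have h5 : L (s • h' - ey) = s * L h' + p := by
    rw [map_sub, map_smul, hpdef, smul_eq_mul, sub_eq_add_neg]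
  have h6 : ‖L‖ * ‖s • h' - ey‖ ≤ ((1 + θ) * p) * (1 + θ / 2) :=
    mul_le_mul hL hnorm (norm_nonneg _) (by positivity)
  have h7 : s * L h' ≤ s * (2 * s * p) := by
    have e1 : s * (2 * s * p) = 2 * θ * p := by rw [← hs2]; ring
    rw [e1]
    have e2 : θ * θ * p ≤ θ * 1 * p := by gcongr
    have e3 : (1 + θ) * p * (1 + θ / 2) = p + 3 / 2 * (θ * p) + 1 / 2 * (θ * θ * p) := by ring
    linarith
  have h8 : L h' ≤ 2 * s * p := le_of_mul_le_mul_left h7 hs0
  have h9 : L h = L h' + i * -p := by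
    have e1 : h = h' + i • ey := by rw [hh']; abel
    conv_lhs => rw [e1]
    rw [map_add, map_smul, hpdef]
    simp
  have h10 : i * -p ≤ ε * p := by
    have : -i ≤ ε := (neg_le_abs i).trans hε
    have := mul_le_mul_of_nonneg_right this hp
    linarith
  rw [h9]
  linarith

/-- small tilt in all orthogonal directions bounds the norm -/
lemma norm_le_of_tilt (L : E N →L[ℝ] ℝ) {e : E N} {ε : ℝ} (he : ‖e‖ = 1) (hp : 0 ≤ -L e)
    (hε : 0 ≤ ε) (h : ∀ h : E N, ‖h‖ = 1 → inner ℝ h e = 0 → L h ≤ ε * -L e) :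
    ‖L‖ ≤ (1 + ε) * -L e := by
  refine L.opNorm_le_bound (by positivity) fun v => ?_
  set i : ℝ := inner ℝ v e with hi
  set v' : E N := v - i • e with hv'
  have horth : inner ℝ v' e = 0 := by
    rw [hv', inner_sub_left, inner_smul_left, real_inner_self_eq_norm_sq, he]
    simp [← hi]
  have hi1 : |i| ≤ ‖v‖ := by
    have := abs_real_inner_le_norm v e
    rwa [he, mul_one] at this
  have hn' : ‖v'‖ ≤ ‖v‖ := by
    have h1 : ‖v‖ ^ 2 = ‖v'‖ ^ 2 + i ^ 2 := by
      have e1 : v = v' + i • e := by rw [hv']; abel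
      have h2 : ‖v' + i • e‖ ^ 2 = ‖v'‖ ^ 2 + 2 * inner ℝ v' (i • e) + ‖i • e‖ ^ 2 :=
        norm_add_sq_real _ _
      rw [← e1, inner_smul_right, horth, norm_smul, he] at h2
      rw [h2]
      simp
    have h2 : ‖v'‖ ^ 2 ≤ ‖v‖ ^ 2 := by nlinarith [sq_nonneg i]
    exact le_of_sq_le_sq h2 (norm_nonneg _)
  have hLv' : |L v'| ≤ ε * -L e * ‖v'‖ := by
    rcases eq_or_ne v' 0 with h0 | h0
    · rw [h0]; simp
    have hpos : 0 < ‖v'‖ := norm_pos_iff.2 h0
    have a1 := h (‖v'‖⁻¹ • v') (by rw [norm_smul, norm_inv, norm_norm, inv_mul_cancel₀ hpos.ne'])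
      (by rw [inner_smul_left, horth, mul_zero])
    have a2 := h (-(‖v'‖⁻¹ • v')) (by
      rw [norm_neg, norm_smul, norm_inv, norm_norm, inv_mul_cancel₀ hpos.ne'])
      (by rw [inner_neg_left, inner_smul_left, horth, mul_zero, neg_zero])
    rw [map_neg, map_smul] at a2
    rw [map_smul] at a1
    simp only [smul_eq_mul] at a1 a2
    rw [abs_le]
    constructor
    · have : ‖v'‖ * (-(‖v'‖⁻¹ * L v')) ≤ ‖v'‖ * (ε * -L e) := by gcongr
      have e1 : ‖v'‖ * (-(‖v'‖⁻¹ * L v')) = -L v' := by field_simp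
      linarith
    · have : ‖v'‖ * (‖v'‖⁻¹ * L v') ≤ ‖v'‖ * (ε * -L e) := by gcongr
      have e1 : ‖v'‖ * (‖v'‖⁻¹ * L v') = L v' := by field_simp
      linarith
  have hLv : L v = L v' + i * L e := by
    have e1 : v = v' + i • e := by rw [hv']; abel
    conv_lhs => rw [e1]
    rw [map_add, map_smul]
    simp
  rw [Real.norm_eq_abs, hLv]
  refine (abs_add_le _ _).trans ?_
  rw [abs_mul, abs_of_nonpos (show L e ≤ 0 by linarith)]
  have h3 : |i| * -L e ≤ ‖v‖ * -L e := by gcongr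
  have h4 : ε * -L e * ‖v'‖ ≤ ε * -L e * ‖v‖ := by gcongr
  linarith

end

/-- the region ahead for [RCR] -/
def AhR {N : ℕ} (U : Set (E N)) (u : ℝ → E N → ℝ) (cc R : ℝ) : Prop :=
  ∃ ρ > 0, ∀ ω > 0, ∃ η > 0, ∃ T > 0, ∀ t ≥ T, ∀ x0 e, NDir U η x0 e →
    |infDist x0 U - cc * t| ≤ η * t → ∀ s, 0 ≤ s → s ≤ ρ * t → ∀ y, dist y x0 ≤ ρ * t →
      Real.log (-dx u e (t - s) y) +
        cc / 2 * (infDist x0 U + inner ℝ (y - x0) e - cc * (t - s)) ≤ ω * t ∨
      ∀ h, ‖h‖ = 1 → inner ℝ h e = 0 → dx u h (t - s) y ≤ R / 2 * -dx u e (t - s) y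

section

variable {N : ℕ} {f : ℝ → ℝ} {U : Set (E N)} {u : ℝ → E N → ℝ} {K cc C0 C9 η0 C : ℝ}

lemma ahR_D (hGEOB : T_GEOB) (hUPB : T_UPB) (hS : Stg f K U u) (hcc : 0 < cc)
    (hF : Frm U u cc C0 C9 η0) (hAD : AheadD U u cc)
    (hC : ∀ t ≥ 1, ∀ x, gr u t x ≤ C ∧ |dt u t x| ≤ C) (R : ℝ) : AhR U u cc R := by
  obtain ⟨ηD, hηD, h2⟩ := hAD
  obtain ⟨η1, hη1, T1, hT1, hlow1⟩ := frm_low hF 1 one_pos
  obtain ⟨Cg, hCg, ρ0, hρ0, h3⟩ := hGEOB N U (cc / 2) (2 * cc) hS.condC hS.ne (by linarith)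
    (by linarith)
  obtain ⟨ρ, hρ, hρ2, -, Tb, hTb, hbox⟩ := box hUPB hS.condC hS.ne hcc (min ηD η1) (by positivity)
  refine ⟨min ρ ρ0, by positivity, ?_⟩
  intro ω hω
  obtain ⟨TD, hTD, hD⟩ := h2 (ω / 2) (by linarith)
  obtain ⟨ηG, hηG, TG, hTG, hG⟩ := h3 (min ρ ρ0) (by positivity) (min_le_right _ _) (ω / cc)
    (by positivity)
  have hev : ∀ᶠ t in atTop, 2 * T1 ≤ t ∧ Tb ≤ t ∧ 2 * TD ≤ t ∧ 2 ≤ t ∧ TG ≤ t ∧
      2 * Real.log C / ω ≤ t :=
    (eventually_ge_atTop _).and ((eventually_ge_atTop _).and ((eventually_ge_atTop _).and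
      ((eventually_ge_atTop _).and ((eventually_ge_atTop _).and (eventually_ge_atTop _)))))
  obtain ⟨T2, hT2⟩ := eventually_atTop.1 hev
  refine ⟨min ηG (min ρ (cc / 2)), by positivity, max T2 1, by positivity, ?_⟩
  intro t ht x0 e hn hd s hs0 hsρ y hy
  left
  obtain ⟨t1, t2, t3, t4, t5, t6⟩ := hT2 t ((le_max_left _ _).trans ht)
  have ht0 : 0 < t := by linarith
  have he : ‖e‖ = 1 := hn.1
  have hd2 : |infDist x0 U - cc * t| ≤ ρ * t :=
    hd.trans (by gcongr; exact (min_le_right _ _).trans (min_le_left _ _))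
  have hd3 : |infDist x0 U - cc * t| ≤ cc / 2 * t :=
    hd.trans (by gcongr; exact (min_le_right _ _).trans (min_le_right _ _))
  have hd3' := abs_le.1 hd3
  have hρt : ρ * t ≤ 1 / 2 * t := by gcongr
  have hmt : min ρ ρ0 * t ≤ ρ * t := by gcongr; exact min_le_left _ _
  have hst : t - s ∈ Icc ((1 - ρ) * t) t := ⟨by linarith, by linarith⟩
  have hts : t / 2 ≤ t - s := by linarith
  have hts1 : 1 ≤ t - s := by linarith
  have hts0 : 0 ≤ t - s := by linarith
  obtain ⟨b1, b2⟩ := hbox t t2 x0 e (ndir_mono hn ((min_le_right _ _).trans (min_le_left _ _)))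
    hd2 (t - s) hst y (hy.trans hmt)
  obtain ⟨l1, -, -⟩ := hlow1 (t - s) (by linarith) y e (ndir_mono b1 (min_le_right _ _))
    (b2.trans (mul_le_mul_of_nonneg_right (min_le_right _ _) hts0))
  have hGy := (hG t t5 x0 e (ndir_mono hn (min_le_left _ _)) (by linarith) (by linarith) y hy).1
  set χ : ℝ := infDist x0 U + inner ℝ (y - x0) e with hχ
  have hgr : -dx u e (t - s) y ≤ gr u (t - s) y := by
    have := (fderiv ℝ (u (t - s)) y).le_opNorm e
    rw [he, mul_one] at this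
    exact (neg_le_abs _).trans this
  have e1 : cc / 2 * (ω / cc * t) = ω / 2 * t := by field_simp
  have hχd : χ ≤ infDist y U + ω / cc * t := by linarith
  rcases le_or_gt (cc * (t - s)) (infDist y U) with h | h
  · have c2 : infDist y U ≤ (cc + ηD) * (t - s) := by
      have b3 := (abs_le.1 b2).2
      have b4 : min ηD η1 * (t - s) ≤ ηD * (t - s) := by gcongr; exact min_le_left _ _
      linarith
    have h5 := hD (t - s) (by linarith) y h c2
    have h6 : -dx u e (t - s) y ≤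
        Real.exp (-(cc / 2 * (infDist y U - cc * (t - s))) + ω / 2 * (t - s)) := by
      have := abs_nonneg (dt u (t - s) y)
      linarith
    have h7 := (Real.log_le_iff_le_exp l1).2 h6
    have h8 : cc / 2 * (χ - cc * (t - s)) ≤
        cc / 2 * (infDist y U + ω / cc * t - cc * (t - s)) := by gcongr
    have h9 : ω / 2 * (t - s) ≤ ω / 2 * t := by gcongr; linarith
    linarith
  · have h7 : Real.log (-dx u e (t - s) y) ≤ Real.log C :=
      Real.log_le_log l1 (hgr.trans (hC _ hts1 y).1)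
    have h8 : cc / 2 * (χ - cc * (t - s)) ≤ cc / 2 * (ω / cc * t) := by
      gcongr
      linarith
    rw [div_le_iff₀ hω] at t6
    linarith

lemma ahR_W (hGEOB : T_GEOB) (hUPB : T_UPB) (hS : Stg f K U u) (hcc : 0 < cc)
    (hF : Frm U u cc C0 C9 η0) (hAW : AheadW U u cc)
    (hC : ∀ t ≥ 1, ∀ x, gr u t x ≤ C ∧ |dt u t x| ≤ C) {R : ℝ} (hR : 0 < R) : AhR U u cc R := by
  obtain ⟨κ, hκ, ηW, hηW, h2⟩ := hAW
  obtain ⟨η1, hη1, T1, hT1, hlow1⟩ := frm_low hF 1 one_pos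
  obtain ⟨Cg, hCg, ρ0, hρ0, h3⟩ := hGEOB N U (cc / 2) (2 * cc) hS.condC hS.ne (by linarith)
    (by linarith)
  set R' : ℝ := min R 1 with hR'
  have hR'0 : 0 < R' := by positivity
  have hR'1 : R' ≤ 1 := min_le_right _ _
  have hR'R : R' ≤ R := min_le_left _ _
  obtain ⟨ρ, hρ, hρ2, -, Tb, hTb, hbox⟩ := box hUPB hS.condC hS.ne hcc
    (min ηW (min η1 (R' / 16))) (by positivity)
  refine ⟨min ρ ρ0, by positivity, ?_⟩
  intro ω hω
  obtain ⟨TD, hTD, hD⟩ := h2 ((R' / 16) ^ 2) (by positivity) (ω / cc / 2) (by positivity)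
  obtain ⟨ηG, hηG, TG, hTG, hG⟩ := h3 (min ρ ρ0) (by positivity) (min_le_right _ _) (ω / cc / 2)
    (by positivity)
  have hev : ∀ᶠ t in atTop, 2 * T1 ≤ t ∧ Tb ≤ t ∧ 2 * TD ≤ t ∧ 2 ≤ t ∧ TG ≤ t ∧
      2 * Real.log C / ω ≤ t :=
    (eventually_ge_atTop _).and ((eventually_ge_atTop _).and ((eventually_ge_atTop _).and
      ((eventually_ge_atTop _).and ((eventually_ge_atTop _).and (eventually_ge_atTop _)))))
  obtain ⟨T2, hT2⟩ := eventually_atTop.1 hev
  refine ⟨min ηG (min ρ (cc / 2)), by positivity, max T2 1, by positivity, ?_⟩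
  intro t ht x0 e hn hd s hs0 hsρ y hy
  obtain ⟨t1, t2, t3, t4, t5, t6⟩ := hT2 t ((le_max_left _ _).trans ht)
  have ht0 : 0 < t := by linarith
  have he : ‖e‖ = 1 := hn.1
  have hd2 : |infDist x0 U - cc * t| ≤ ρ * t :=
    hd.trans (by gcongr; exact (min_le_right _ _).trans (min_le_left _ _))
  have hd3 : |infDist x0 U - cc * t| ≤ cc / 2 * t :=
    hd.trans (by gcongr; exact (min_le_right _ _).trans (min_le_right _ _))
  have hd3' := abs_le.1 hd3
  have hρt : ρ * t ≤ 1 / 2 * t := by gcongr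
  have hmt : min ρ ρ0 * t ≤ ρ * t := by gcongr; exact min_le_left _ _
  have hst : t - s ∈ Icc ((1 - ρ) * t) t := ⟨by linarith, by linarith⟩
  have hts : t / 2 ≤ t - s := by linarith
  have hts1 : 1 ≤ t - s := by linarith
  have hts0 : 0 ≤ t - s := by linarith
  obtain ⟨b1, b2⟩ := hbox t t2 x0 e (ndir_mono hn ((min_le_right _ _).trans (min_le_left _ _)))
    hd2 (t - s) hst y (hy.trans hmt)
  have hmin1 : min ηW (min η1 (R' / 16)) ≤ η1 := (min_le_right _ _).trans (min_le_left _ _)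
  have hmin2 : min ηW (min η1 (R' / 16)) ≤ R' / 16 := (min_le_right _ _).trans (min_le_right _ _)
  obtain ⟨l1, -, -⟩ := hlow1 (t - s) (by linarith) y e (ndir_mono b1 hmin1)
    (b2.trans (mul_le_mul_of_nonneg_right hmin1 hts0))
  have hGy := (hG t t5 x0 e (ndir_mono hn (min_le_left _ _)) (by linarith) (by linarith) y hy).1
  set χ : ℝ := infDist x0 U + inner ℝ (y - x0) e with hχ
  have hgr : -dx u e (t - s) y ≤ gr u (t - s) y := by
    have := (fderiv ℝ (u (t - s)) y).le_opNorm e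
    rw [he, mul_one] at this
    exact (neg_le_abs _).trans this
  have e1 : cc / 2 * (ω / cc * t) = ω / 2 * t := by field_simp
  rcases le_or_gt χ (cc * (t - s) + ω / cc * t) with h | h
  · left
    have h7 : Real.log (-dx u e (t - s) y) ≤ Real.log C :=
      Real.log_le_log l1 (hgr.trans (hC _ hts1 y).1)
    have h8 : cc / 2 * (χ - cc * (t - s)) ≤ cc / 2 * (ω / cc * t) := by
      gcongr
      linarith
    rw [div_le_iff₀ hω] at t6
    linarith
  · right
    intro v hv hve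
    obtain ⟨-, ξ, ey, hDir, hey⟩ := b1
    have hey16 : ‖e - ey‖ ≤ R' / 16 := hey.trans hmin2
    have hωc : 0 < ω / cc := by positivity
    have c1 : (cc + ω / cc / 2) * (t - s) ≤ infDist y U := by
      have : ω / cc / 2 * (t - s) ≤ ω / cc / 2 * t := by gcongr; linarith
      linarith
    have c2 : infDist y U ≤ (cc + ηW) * (t - s) := by
      have b3 := (abs_le.1 b2).2
      have b4 : min ηW (min η1 (R' / 16)) * (t - s) ≤ ηW * (t - s) := by
        gcongr; exact min_le_left _ _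
      linarith
    obtain ⟨w1, w2, -⟩ := hD (t - s) (by linarith) y ξ ey hDir c1 c2
    have hi : |inner ℝ v ey| ≤ R' / 16 := by
      have e2 : inner ℝ v ey = -inner ℝ v (e - ey) := by
        rw [inner_sub_right, hve]
        ring
      rw [e2, abs_neg]
      refine (abs_real_inner_le_norm _ _).trans ?_
      rw [hv, one_mul]
      exact hey16
    have hθ1 : (R' / 16) ^ 2 ≤ 1 := pow_le_one₀ (by positivity) (by linarith)
    have k1 := tilt_small (fderiv ℝ (u (t - s)) y) hDir.unit hv w2 (by positivity) hθ1 hi w1.le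
    rw [Real.sqrt_sq (by positivity)] at k1
    have k2 : dx u v (t - s) y ≤ (2 * (R' / 16) + R' / 16) * -dx u ey (t - s) y := k1
    have d1 : dx u e (t - s) y = dx u ey (t - s) y + dx u (e - ey) (t - s) y := by
      unfold dx
      rw [← map_add]
      congr 1
      abel
    have d2 : |dx u (e - ey) (t - s) y| ≤ gr u (t - s) y * ‖e - ey‖ :=
      (fderiv ℝ (u (t - s)) y).le_opNorm _
    have d3 : gr u (t - s) y * ‖e - ey‖ ≤ (2 * -dx u ey (t - s) y) * (1 / 16) := by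
      refine mul_le_mul ?_ (hey16.trans (by linarith)) (norm_nonneg _) (by linarith)
      refine w2.trans ?_
      gcongr
      linarith
    have d4 := le_abs_self (dx u (e - ey) (t - s) y)
    have d5 : 7 / 8 * -dx u ey (t - s) y ≤ -dx u e (t - s) y := by linarith
    have d6 : (2 * (R' / 16) + R' / 16) * -dx u ey (t - s) y ≤
        R / 2 * (7 / 8 * -dx u ey (t - s) y) := by
      have : (2 * (R' / 16) + R' / 16) ≤ R / 2 * (7 / 8) := by linarith
      have := mul_le_mul_of_nonneg_right this w1.le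
      linarith
    have d7 : R / 2 * (7 / 8 * -dx u ey (t - s) y) ≤ R / 2 * -dx u e (t - s) y := by gcongr
    linarith

end

end Pool.Agent.H3.RF
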